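import Pool.Agent.Y677.RSZ.Top
import Pool.Agent.Helper256.KM.Mertens

/-!
Library V5helper49.EU: arithmetic progressions in dense sets of primes `≡ 1 (mod A)` of a window, from
`Y677.RSZ` (Szemerédi's theorem relative to sifted sets).
-/

set_option autoImplicit false

namespace Pool.Agent.V5helper49.EU

open Finset
open Pool.Agent.Y677.RSZ (Sys rt V S_ENG eng_all)
open Pool.Agent.TH423.SH (PS)

lemma rt_id (p : ℕ) (hp : p.Prime) : rt (fun n : ℤ => n) p = 1 := by
  unfold rt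
  rw [card_eq_one]
  refine ⟨0, ?_⟩
  ext r
  rw [mem_filter, mem_range, mem_singleton]
  constructor
  · rintro ⟨h1, h2⟩
    have h3 : p ∣ r := Int.natCast_dvd_natCast.1 h2
    exact Nat.eq_zero_of_dvd_of_lt h3 h1
  · rintro rfl
    exact ⟨hp.pos, by simp⟩

lemma sys_id : Sys 2 (fun n : ℤ => n) where
  per := fun p _ n => by simp
  root := fun p hp => by rw [rt_id p hp]; exact ⟨by norm_num, hp.one_lt⟩
  coll := by
    refine ⟨fun h => h, fun h hh => ⟨le_trans (by norm_num) hh, Nat.le_self_pow (by norm_num) h, fun p _ n h1 h2 => ?_⟩⟩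
    have h3 := dvd_sub h2 h1
    rw [add_sub_cancel_left] at h3
    exact_mod_cast h3

lemma V_up : ∃ C : ℝ, 0 < C ∧ ∀ P : ℕ, 3 ≤ P → V (fun n : ℤ => n) 1 P ≤ C / Real.log P := by
  obtain ⟨C, hC⟩ := Pool.Agent.Helper256.KM.mertens_inv
  refine ⟨Real.exp C, Real.exp_pos _, fun P hP => ?_⟩
  have hP1 : (1 : ℝ) < P := by exact_mod_cast (by omega : 1 < P)
  have hlog : 0 < Real.log P := Real.log_pos hP1
  have hPS : PS 1 P = (Icc 1 P).filter Nat.Prime := by
    unfold PS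
    ext p
    rw [mem_filter, mem_filter]
    constructor
    · rintro ⟨h1, h2, _⟩
      exact ⟨h1, h2⟩
    · rintro ⟨h1, h2⟩
      exact ⟨h1, h2, fun h => h2.one_lt.ne' (Nat.dvd_one.1 h)⟩
  unfold V
  rw [hPS]
  have h1 : ∏ p ∈ (Icc 1 P).filter Nat.Prime, (1 - (rt (fun n : ℤ => n) p : ℝ) / p) ≤
      ∏ p ∈ (Icc 1 P).filter Nat.Prime, Real.exp (-(1 / (p : ℝ))) := by
    apply prod_le_prod
    · intro p hp
      rw [mem_filter] at hp
      rw [rt_id p hp.2, Nat.cast_one, sub_nonneg, div_le_one (by exact_mod_cast hp.2.pos)]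
      exact_mod_cast hp.2.one_lt.le
    · intro p hp
      rw [mem_filter] at hp
      rw [rt_id p hp.2, Nat.cast_one]
      have := Real.add_one_le_exp (-(1 / (p : ℝ)))
      linarith
  refine h1.trans ?_
  rw [← Real.exp_sum, sum_neg_distrib]
  have h2 := (abs_le.1 (hC P hP)).1
  have h3 : -∑ p ∈ (Icc 1 P).filter Nat.Prime, (1 / (p : ℝ)) ≤ C - Real.log (Real.log P) := by linarith
  refine (Real.exp_le_exp.2 h3).trans (le_of_eq ?_)
  rw [Real.exp_sub, Real.exp_log hlog]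

/-- arithmetic progressions of good primes -/
theorem ap_good (A : ℕ) (hA : 1 ≤ A) (κ : ℝ) (hκ : 0 < κ) (hκ1 : κ ≤ 1) (L : ℕ) : ∃ Pm : ℕ, ∀ P : ℕ,
    Pm ≤ P → ∀ Good : Finset ℕ, (∀ p ∈ Good, p ∈ Ioc P ⌊(1 + κ) * P⌋₊ ∧ p.Prime ∧ p % A = 1 % A) →
    (5 / 8 : ℝ) * (κ * P / ((A.totient : ℝ) * Real.log P)) ≤ Good.card →
    ∃ a D : ℕ, 1 ≤ D ∧ A ∣ D ∧ ∀ i < L, a + i * D ∈ Good := by
  obtain ⟨C, hC, hV⟩ := V_up
  have hφ : (0 : ℝ) < A.totient := by exact_mod_cast Nat.totient_pos.2 hA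
  obtain ⟨B, H₀, hB⟩ := eng_all (L + 2) 2 (1 / 2) (5 / 8 * κ / (A.totient * C)) (by omega) (by norm_num)
    (by positivity)
  refine ⟨H₀ + 3, fun P hP Good hG hc => ?_⟩
  have hP3 : (3 : ℝ) ≤ P := by exact_mod_cast (by omega : 3 ≤ P)
  have hlog : 0 < Real.log P := Real.log_pos (by linarith)
  obtain ⟨a, D, hD, -, hAP⟩ := hB (fun n => n) P P Good sys_id (by omega) (by
      intro n hn
      rw [mem_Ioc] at hn
      refine ⟨by exact_mod_cast (by omega : n ≠ 0), ?_⟩
      have h1 : (n : ℤ) ≤ P + P := by exact_mod_cast hn.2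
      have h2 : (3 : ℤ) ≤ P := by exact_mod_cast (by omega : 3 ≤ P)
      rw [abs_of_nonneg (by positivity)]
      nlinarith)
    (by
      intro p hp
      obtain ⟨h1, -, -⟩ := hG p hp
      rw [mem_Ioc] at h1 ⊢
      refine ⟨h1.1, ?_⟩
      have h2 : (p : ℝ) ≤ (1 + κ) * P := (Nat.cast_le.2 h1.2).trans (Nat.floor_le (by positivity))
      have h3 : (p : ℝ) ≤ ((P + P : ℕ) : ℝ) := by
        push_cast
        nlinarith
      exact_mod_cast h3)
    (by
      intro n hn p hp hpP hdvd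
      obtain ⟨h1, h2, -⟩ := hG n hn
      rw [mem_Ioc] at h1
      have h3 : p ∣ n := by exact_mod_cast hdvd
      have h4 := (Nat.prime_dvd_prime_iff_eq hp h2).1 h3
      have h5 : (P : ℝ) ^ (1 / 2 : ℝ) ≤ P := by
        calc (P : ℝ) ^ (1 / 2 : ℝ) ≤ (P : ℝ) ^ (1 : ℝ) :=
              Real.rpow_le_rpow_of_exponent_le (by linarith) (by norm_num)
          _ = P := Real.rpow_one _
      have h6 : (p : ℝ) ≤ P := hpP.trans h5
      have h7 : p ≤ P := by exact_mod_cast h6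
      omega)
    (by
      refine le_trans ?_ hc
      have h1 := hV P (by omega)
      have h2 : 5 / 8 * κ / (A.totient * C) * (P * V (fun n : ℤ => n) 1 P) ≤
          5 / 8 * κ / (A.totient * C) * (P * (C / Real.log P)) := by
        apply mul_le_mul_of_nonneg_left _ (by positivity)
        exact mul_le_mul_of_nonneg_left h1 (by positivity)
      refine h2.trans (le_of_eq ?_)
      field_simp)
  refine ⟨a, D, hD, ?_, fun i hi => hAP i (by omega)⟩
  have h0 := (hG _ (hAP 0 (by omega))).2.2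
  have h1 := (hG _ (hAP 1 (by omega))).2.2
  rw [zero_mul, add_zero] at h0
  rw [one_mul] at h1
  have h2 : a ≡ a + D [MOD A] := h0.trans h1.symm
  have h3 : A ∣ a + D - a := (Nat.modEq_iff_dvd' (by omega)).1 h2
  rwa [Nat.add_sub_cancel_left] at h3

end Pool.Agent.V5helper49.EU
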