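import Pool.Agent.Y958.U.Stm

/-!
Library V5helper49.EU: the sum of `2 ^ d` relations whose dilation factors form an arithmetic progression.
-/

set_option autoImplicit false

namespace Pool.Agent.V5helper49.EU

open Finset
open Pool.Agent.Y958.U (PP)
open LaurentPolynomial (T)

abbrev LP := LaurentPolynomial (ZMod 2)

lemma two0 (g : LP) : g + g = 0 := by
  have h : (1 : LP) + 1 = 0 := by
    rw [← map_one (LaurentPolynomial.C (R := ZMod 2)), ← map_add, show (1 : ZMod 2) + 1 = 0 from by decide,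
      map_zero]
  calc g + g = (1 + 1) * g := by ring
    _ = 0 := by rw [h, zero_mul]

lemma sq_fold (g : LP) : (1 + g) * (1 + g) = 1 + g * g := by
  have h : (1 + g) * (1 + g) = 1 + g * g + (g + g) := by ring
  rw [h, two0, add_zero]

/-- the sum over the cube -/
lemma cube_id {d : ℕ} (x : Fin (d + 1) → ℤ) (a : ℤ) (r : Fin d → ℤ) :
    ∑ η : Finset (Fin d), T (-(∑ j ∈ η, r j * x j.succ)) * PP x (a + ∑ j ∈ η, r j) =
      T (a * x 0) * ∏ j : Fin d, (1 + (T (r j * (x 0 - x j.succ)) : LP)) := by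
  have h1 : ∀ η : Finset (Fin d), (T (-(∑ j ∈ η, r j * x j.succ)) * PP x (a + ∑ j ∈ η, r j) : LP) =
      ∑ i, T (a * x i) * ∏ j ∈ η, T (r j * (x i - x j.succ)) := by
    intro η
    unfold PP
    rw [mul_sum]
    apply sum_congr rfl
    intro i _
    rw [← LaurentPolynomial.T_add]
    have h2 : ∏ j ∈ η, (T (r j * (x i - x j.succ)) : LP) = T (∑ j ∈ η, r j * (x i - x j.succ)) := by
      induction η using Finset.induction_on with
      | empty => simp
      | insert b s hb ih => rw [prod_insert hb, sum_insert hb, ih, LaurentPolynomial.T_add]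
    rw [h2, ← LaurentPolynomial.T_add]
    congr 1
    rw [add_mul, sum_mul]
    have h3 : ∑ j ∈ η, r j * (x i - x j.succ) = ∑ j ∈ η, r j * x i - ∑ j ∈ η, r j * x j.succ := by
      rw [← sum_sub_distrib]
      apply sum_congr rfl
      intro j _
      ring
    rw [h3]
    ring
  rw [sum_congr rfl fun η _ => h1 η, sum_comm]
  have h4 : ∀ i : Fin (d + 1), ∑ η : Finset (Fin d), T (a * x i) * ∏ j ∈ η, (T (r j * (x i - x j.succ)) : LP) =
      T (a * x i) * ∏ j : Fin d, (1 + (T (r j * (x i - x j.succ)) : LP)) := by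
    intro i
    rw [← mul_sum, Finset.prod_one_add]
    rw [powerset_univ]
  rw [sum_congr rfl fun i _ => h4 i, Fin.sum_univ_succ]
  have h5 : ∑ i : Fin d, T (a * x i.succ) * ∏ j : Fin d, (1 + (T (r j * (x i.succ - x j.succ)) : LP)) = 0 := by
    apply sum_eq_zero
    intro i _
    rw [prod_eq_zero (mem_univ i), mul_zero]
    rw [sub_self, mul_zero, LaurentPolynomial.T_zero]
    exact two0 1
  rw [h5, add_zero]

/-- the product telescopes when the sides are `S, S, 2 S, 4 S, …` -/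
lemma fold_range (S : ℤ) (d : ℕ) : ∏ j ∈ range (d + 1), (1 + (T (2 ^ (j - 1) * S) : LP)) =
    1 + T (2 ^ d * S) := by
  induction d with
  | zero => simp
  | succ d ih =>
    rw [prod_range_succ, ih, Nat.add_sub_cancel, sq_fold, ← LaurentPolynomial.T_add]
    congr 2
    ring

lemma one_add_T_neg (s : ℤ) : (1 + T (-s) : LP) = T (-s) * (1 + T s) := by
  rw [mul_add, mul_one, ← LaurentPolynomial.T_add, neg_add_cancel, LaurentPolynomial.T_zero, add_comm]

/-- signs can be removed -/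
lemma prod_sign {ι : Type} (s : Finset ι) (u w : ι → ℤ) (h : ∀ j ∈ s, u j = w j ∨ u j = -w j) :
    ∃ y : ℤ, ∏ j ∈ s, (1 + (T (u j) : LP)) = T y * ∏ j ∈ s, (1 + (T (w j) : LP)) := by
  classical
  induction s using Finset.induction_on with
  | empty => exact ⟨0, by simp⟩
  | insert b s hb ih =>
    obtain ⟨y, hy⟩ := ih fun j hj => h j (mem_insert_of_mem hj)
    rw [prod_insert hb, prod_insert hb, hy]
    rcases h b (mem_insert_self b s) with h1 | h1
    · exact ⟨y, by rw [h1]; ring⟩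
    · refine ⟨-w b + y, ?_⟩
      rw [h1, one_add_T_neg, LaurentPolynomial.T_add]
      ring

/-- **the algebra**: the relations attached to `a + i D`, `0 < |i| ≤ L t`, combine to a relation between one
factor at the point `a x 0 + Λ t D` and factors which do not depend on `t`; it uses `2 ^ d - 1` relations -/
theorem alg (d : ℕ) (hd : 1 ≤ d) (x : Fin (d + 1) → ℤ) (hx : Function.Injective x) :
    ∃ L Λ : ℕ, 1 ≤ Λ ∧ ∀ (A D : ℕ) (a : ℤ), A ∣ D → ∀ H : LP → ℕ → Prop, H 0 0 →
      (∀ g g' b b', H g b → H g' b' → H (g + g') (b + b')) →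
      (∀ g b (t : ℤ), (A : ℤ) ∣ t → H g b → H (T t * g) b) →
      ∀ t : ℕ, (∀ i : ℤ, |i| ≤ L * t → H (PP x (a + i * D)) 1) →
      H ((T (a * x 0) + PP x a) + T (a * x 0 + ((Λ * t * D : ℕ) : ℤ))) (2 ^ d - 1) := by
  classical
  set δ : Fin d → ℤ := fun j => x 0 - x j.succ with hδ
  have hδ0 : ∀ j, δ j ≠ 0 := by
    intro j h
    have h1 := hx (sub_eq_zero.1 h)
    exact absurd h1 (Fin.succ_ne_zero j).symm
  set Λ₀ : ℕ := ∏ j, (δ j).natAbs with hΛ₀
  have hΛ₀0 : 0 < Λ₀ := prod_pos fun j _ => Int.natAbs_pos.2 (hδ0 j)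
  have hdvd : ∀ j, ∃ q : ℤ, (Λ₀ : ℤ) = q * δ j := by
    intro j
    have h1 : (δ j).natAbs ∣ Λ₀ := dvd_prod_of_mem (fun j => (δ j).natAbs) (mem_univ j)
    have h2 : δ j ∣ (Λ₀ : ℤ) := Int.natAbs_dvd.1 (by exact_mod_cast h1)
    obtain ⟨q, hq⟩ := h2
    exact ⟨q, by rw [hq]; ring⟩
  choose q hq using hdvd
  set m : Fin d → ℤ := fun j => 2 ^ ((j : ℕ) - 1) * q j with hm
  refine ⟨∑ j, (m j).natAbs, 2 ^ (d - 1) * Λ₀, Nat.one_le_iff_ne_zero.2 (by positivity), ?_⟩
  intro A D a hAD H H0 Hadd HT t HP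
  have hsum : ∀ s : Finset (Finset (Fin d)), H (∑ η ∈ s, T (-(∑ j ∈ η, ((D : ℤ) * t * m j) * x j.succ)) *
      PP x (a + ∑ j ∈ η, (D : ℤ) * t * m j)) s.card := by
    intro s
    induction s using Finset.induction_on with
    | empty => simpa using H0
    | insert η s hη ih =>
      rw [sum_insert hη, card_insert_of_notMem hη, add_comm s.card 1]
      apply Hadd _ _ _ _ _ ih
      apply HT
      · rw [dvd_neg]
        apply dvd_sum
        intro j _
        rw [mul_assoc, mul_assoc]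
        exact Dvd.dvd.mul_right (by exact_mod_cast hAD) _
      · have h1 : a + ∑ j ∈ η, (D : ℤ) * t * m j = a + (t * ∑ j ∈ η, m j) * D := by
          rw [← mul_sum]
          ring
        rw [h1]
        apply HP
        rw [abs_mul, Nat.abs_cast, mul_comm]
        apply mul_le_mul_of_nonneg_right _ (Nat.cast_nonneg t)
        calc |∑ j ∈ η, m j| ≤ ∑ j ∈ η, |m j| := abs_sum_le_sum_abs _ _
          _ ≤ ∑ j, |m j| := sum_le_sum_of_subset_of_nonneg (subset_univ _) fun _ _ _ => abs_nonneg _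
          _ = ((∑ j, (m j).natAbs : ℕ) : ℤ) := by
              rw [Nat.cast_sum]
              apply sum_congr rfl
              intro j _
              exact (Int.natCast_natAbs _).symm
  have h2 := hsum (univ.erase ∅)
  have hcard : (univ.erase (∅ : Finset (Fin d))).card = 2 ^ d - 1 := by
    rw [card_erase_of_mem (mem_univ _), card_univ, Fintype.card_finset, Fintype.card_fin]
  rw [hcard] at h2
  have h3 := add_sum_erase (univ : Finset (Finset (Fin d)))
    (fun η => T (-(∑ j ∈ η, ((D : ℤ) * t * m j) * x j.succ)) * PP x (a + ∑ j ∈ η, (D : ℤ) * t * m j))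
    (mem_univ ∅)
  rw [cube_id] at h3
  simp only [sum_empty, neg_zero, add_zero, LaurentPolynomial.T_zero, one_mul] at h3
  have h6 : ∏ j : Fin d, (1 + (T ((D : ℤ) * t * m j * (x 0 - x j.succ)) : LP)) =
      1 + T ((Λ₀ : ℤ) * 2 ^ (d - 1) * (t * D)) := by
    have h7 : ∀ j : Fin d, (D : ℤ) * t * m j * (x 0 - x j.succ) = 2 ^ ((j : ℕ) - 1) * ((Λ₀ : ℤ) * (t * D)) := by
      intro j
      rw [hq j]
      simp only [hm, hδ]
      ring
    rw [prod_congr rfl fun j _ => by rw [h7 j],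
      Fin.prod_univ_eq_prod_range (fun j => 1 + (T (2 ^ (j - 1) * ((Λ₀ : ℤ) * (t * D))) : LP)) d]
    obtain ⟨d', rfl⟩ : ∃ d', d = d' + 1 := ⟨d - 1, by omega⟩
    rw [fold_range, Nat.add_sub_cancel]
    congr 2
    ring
  rw [h6] at h3
  have h8 : ∑ η ∈ univ.erase (∅ : Finset (Fin d)), T (-(∑ j ∈ η, ((D : ℤ) * t * m j) * x j.succ)) *
      PP x (a + ∑ j ∈ η, (D : ℤ) * t * m j) = (T (a * x 0) + PP x a) + T (a * x 0 +
        ((2 ^ (d - 1) * Λ₀ * t * D : ℕ) : ℤ)) := by
    have h9 : T (a * x 0) * (1 + T ((Λ₀ : ℤ) * 2 ^ (d - 1) * (t * D))) =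
        (T (a * x 0) + T (a * x 0 + ((2 ^ (d - 1) * Λ₀ * t * D : ℕ) : ℤ)) : LP) := by
      rw [mul_add, mul_one, ← LaurentPolynomial.T_add]
      congr 3
      push_cast
      ring
    rw [h9] at h3
    calc _ = (PP x a + PP x a) + ∑ η ∈ univ.erase (∅ : Finset (Fin d)),
          T (-(∑ j ∈ η, ((D : ℤ) * t * m j) * x j.succ)) * PP x (a + ∑ j ∈ η, (D : ℤ) * t * m j) := by
          rw [two0, zero_add]
      _ = PP x a + (T (a * x 0) + T (a * x 0 + ((2 ^ (d - 1) * Λ₀ * t * D : ℕ) : ℤ))) := by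
          rw [add_assoc, h3]
      _ = _ := by ring
  rw [h8] at h2
  exact h2

end Pool.Agent.V5helper49.EU
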