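import Pool.Agent.Y958.U.Main
import Pool.Agent.Y304.U.Pw
import Pool.Agent.Y304.U.Avc

/-!
Library V5helper49.EU: good primes at the bad scales. The first half of the proof of `Y958.U.main`,
stated separately.
-/

set_option autoImplicit false

namespace Pool.Agent.V5helper49.EU

open Finset Filter Topology
open Pool.Agent.TH112.BL (Bd QD win)
open Pool.Agent.TH823.MRS (ExpoSmall FlipAll)
open Pool.Agent.Y958.TC (NM ind Bd_ind ind_nonneg m_class m_sum m_shift um Av Av_bd um_tendsto sS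
  sS_tendsto div_atTop two per_mod sum_inv_large exists_ultra alp alp_f alp_mod Df b1 bad_sum dec QDp)
open Pool.Agent.Y958.U

theorem s_avc : S_AVC := Pool.Agent.Y304.U.avc Pool.Agent.Y304.U.pw

/-- If the scales at which the Chowla average is larger than `(1 - c) v` do not have logarithmic density
zero, then there is an ultrafilter limit avoiding a given set of logarithmic density zero, for which most
primes of some window are good. -/
theorem good_primes (c : ℝ) (f : ℕ → ℤ) (hb : ∀ n, |f n| ≤ 1) (hf : FlipAll f)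
    (V : ℕ → Prop) (A : ℕ) (hA : 1 ≤ A) (hV : ∀ n, V (n + A) ↔ V n)
    (k : ℕ) (x e : Fin k → ℕ)
    (hcon : ¬ LZ {N | (1 - c) * dv V A < |Av N (fun n => ind V n * ∏ i, (f (n + x i) : ℝ) ^ e i)|})
    (E' : Set ℕ) (hE'Z : LZ E') (κ : ℝ) (hκ0 : 0 < κ) (hκ1 : κ ≤ 1 / 4) (Pm : ℕ) :
    ∃ (𝓤 : Ultrafilter ℕ) (hU : (𝓤 : Filter ℕ) ≤ atTop), (∀ᶠ M in (𝓤 : Filter ℕ), M ∉ E') ∧
      ∃ P : ℕ, Pm ≤ P ∧ ∃ Good : Finset ℕ,
        (∀ p ∈ Good, p ∈ Ioc P ⌊(1 + κ) * P⌋₊ ∧ p.Prime ∧ p % A = 1 % A) ∧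
        (5 / 8 : ℝ) * (κ * P / ((A.totient : ℝ) * Real.log P)) ≤ Good.card ∧
        ∀ p ∈ Good, (1 - c) * dv V A - 3 * κ ≤ |(um 𝓤 hU).m (Gp f V x e p)| := by
  classical
  have hAVC := s_avc
  have hPW := Pool.Agent.Y304.U.pw
  set ψ : ℕ → ℝ := fun n => ind V n * ∏ i, (f (n + x i) : ℝ) ^ e i with hψd
  set E : Set ℕ := {N | (1 - c) * dv V A < |Av N ψ|} with hEd
  set v : ℝ := dv V A with hvd
  obtain ⟨P₀, hP₀⟩ := hPW A hA κ hκ0 (by linarith)
  have hφA : (1 : ℝ) ≤ A.totient := by exact_mod_cast Nat.totient_pos.2 hA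
  set ε : ℝ := κ ^ 2 / (64 * (A.totient : ℝ)) with hεd
  have hε0 : 0 < ε := by positivity
  have hfr : ∀ n, |(f n : ℝ)| ≤ 1 := by
    intro n; exact_mod_cast hb n
  haveI : NeZero A := ⟨by omega⟩
  obtain ⟨ε', hε', I₀, hAv⟩ := hAVC E E' hcon hE'Z
  set η : ℝ := (ε / 30) * ε / 3 with hη
  have hη0 : 0 < η := by positivity
  have hlim : Tendsto (fun i : ℕ => (i : ℝ) / 2 ^ i) atTop (𝓝 0) := by
    have := tendsto_pow_const_div_const_pow_of_one_lt 1 (show (1 : ℝ) < 2 by norm_num)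
    simpa using this
  have hlim2 : Tendsto (fun i : ℕ => (6 * k : ℝ) / 2 ^ i) atTop (𝓝 0) := by
    have h1 := tendsto_pow_const_div_const_pow_of_one_lt 0 (show (1 : ℝ) < 2 by norm_num)
    have h2 := h1.const_mul (6 * k : ℝ)
    simp only [pow_zero, mul_zero] at h2
    refine h2.congr fun i => ?_
    ring
  obtain ⟨I₂, hI₂⟩ := eventually_atTop.1 (hlim.eventually_lt_const hη0)
  obtain ⟨I₃, hI₃⟩ := eventually_atTop.1 (hlim2.eventually_lt_const hε0)
  set i₀ : ℕ := I₀ + I₂ + I₃ + P₀ + Pm + A + 1 with hi₀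
  set cW : ℕ := 2 * (1 + ∑ i, x i) with hcW
  set B : ℝ := cW * Real.log (Fintype.card (SignType × ZMod A)) / η with hBd
  have hB0 : 0 ≤ B := by
    rw [hBd]
    have : 0 ≤ Real.log (Fintype.card (SignType × ZMod A)) := Real.log_natCast_nonneg _
    positivity
  obtain ⟨i₁, hi₁, hS⟩ := sum_inv_large i₀ (by omega) (3 * B / ε')
  set S : ℝ := ∑ i ∈ Ico i₀ i₁, (1 : ℝ) / i with hSd
  obtain ⟨𝓤, hU, hmem⟩ := exists_ultra {M : ℕ | M ∉ E' ∧ ε' * S ≤
      ∑ i ∈ Ico i₀ i₁, (1 : ℝ) / i * ∑ p ∈ QQ i, Real.log p / 2 ^ i * (if M / p ∈ E then 1 else 0)}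
    (fun M₀ => by
      obtain ⟨M, hM1, hM2, hM3⟩ := hAv i₀ i₁ (by omega) hi₁ M₀
      exact ⟨M, hM1, hM2, hM3⟩)
  have hψ : ∀ n, |ψ n| ≤ 1 := by
    intro n
    have h1 : |ind V n| ≤ 1 := by unfold ind; split_ifs <;> norm_num
    rw [hψd]
    simp only
    rw [abs_mul]
    calc |ind V n| * |∏ i, (f (n + x i) : ℝ) ^ e i| ≤ 1 * 1 :=
          mul_le_mul h1 (prod_le f hb e _) (abs_nonneg _) zero_le_one
      _ = 1 := one_mul 1
  have hw0 : ∀ i, ∀ p ∈ QD i (i + 1), 0 ≤ Real.log (p : ℝ) / 2 ^ i := fun i p _ =>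
    div_nonneg (Real.log_natCast_nonneg _) (by positivity)
  have hbad := bad_sum (um 𝓤 hU) (alp f A) cW η hη0 i₀ i₁ (by omega)
  have hex : ∃ i ∈ Ico i₀ i₁, Df (um 𝓤 hU) (alp f A) b1 () cW i ≤ η * 2 ^ i / i ∧
      ∃ p₀ ∈ QD i (i + 1), {M : ℕ | M / p₀ ∈ E} ∈ (𝓤 : Filter ℕ) := by
    by_contra hno
    push Not at hno
    have hev : ∀ᶠ M in (𝓤 : Filter ℕ), ∀ i ∈ (Ico i₀ i₁).filter
        (fun i => Df (um 𝓤 hU) (alp f A) b1 () cW i ≤ η * 2 ^ i / i), ∀ p ∈ QD i (i + 1), M / p ∉ E := by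
      rw [Filter.eventually_all_finset]
      intro i hi
      rw [mem_filter] at hi
      rw [Filter.eventually_all_finset]
      intro p hp
      have h1 := hno i hi.1 hi.2 p hp
      exact Ultrafilter.compl_mem_iff_notMem.2 h1
    obtain ⟨M, hM1, hM2⟩ := (hev.and hmem).exists
    obtain ⟨-, hM3⟩ := hM2
    have h4 : ∑ i ∈ Ico i₀ i₁, (1 : ℝ) / i * ∑ p ∈ QQ i, Real.log p / 2 ^ i *
        (if M / p ∈ E then 1 else 0) ≤ 3 * B := by
      rw [← sum_filter_add_sum_filter_not (Ico i₀ i₁)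
        (fun i => Df (um 𝓤 hU) (alp f A) b1 () cW i ≤ η * 2 ^ i / i)]
      have h5 : ∑ i ∈ (Ico i₀ i₁).filter (fun i => Df (um 𝓤 hU) (alp f A) b1 () cW i ≤ η * 2 ^ i / i),
          (1 : ℝ) / i * ∑ p ∈ QQ i, Real.log p / 2 ^ i * (if M / p ∈ E then 1 else 0) = 0 := by
        apply sum_eq_zero
        intro i hi
        rw [sum_eq_zero, mul_zero]
        intro p hp
        rw [if_neg (hM1 i hi p hp), mul_zero]
      rw [h5, zero_add]
      have h6 : ∀ i ∈ (Ico i₀ i₁).filter (fun i => ¬ Df (um 𝓤 hU) (alp f A) b1 () cW i ≤ η * 2 ^ i / i),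
          (1 : ℝ) / i * ∑ p ∈ QQ i, Real.log p / 2 ^ i * (if M / p ∈ E then 1 else 0) ≤ 1 / i * 3 := by
        intro i _
        apply mul_le_mul_of_nonneg_left _ (by positivity)
        have h5 : (0 : ℝ) < 2 ^ i := by positivity
        calc ∑ p ∈ QQ i, Real.log p / 2 ^ i * (if M / p ∈ E then (1 : ℝ) else 0) ≤
              ∑ p ∈ QD i (i + 1), Real.log (p : ℝ) / 2 ^ i := by
              apply sum_le_sum
              intro p hp
              have := hw0 i p hp
              split_ifs <;> linarith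
          _ = (∑ p ∈ QD i (i + 1), Real.log (p : ℝ)) / 2 ^ i := by rw [sum_div]
          _ ≤ 3 := by
              rw [div_le_iff₀ h5]
              exact Pool.Agent.TH575.CW.theta_QD i
      refine (sum_le_sum h6).trans ?_
      rw [← sum_mul, mul_comm]
      exact mul_le_mul_of_nonneg_left hbad (by norm_num)
    have h7 := hM3.trans h4
    rw [div_lt_iff₀ hε'] at hS
    nlinarith
  obtain ⟨i, hi, hDf, p₀, hp₀, hmem0⟩ := hex
  rw [mem_Ico] at hi
  have hip : i < 2 ^ i := Nat.lt_two_pow_self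
  have hs0 : (1 - c) * v ≤ |sS 𝓤 ψ p₀| := by
    apply ge_of_tendsto (sS_tendsto 𝓤 hψ p₀).abs
    filter_upwards [hmem0] with M hM
    exact le_of_lt hM
  obtain ⟨P, hP1, hP2, hPw⟩ := window κ hκ0 hκ1 i p₀ hp₀
  set Pset : Finset ℕ := (Ioc P ⌊(1 + κ) * P⌋₊).filter (fun p => p.Prime ∧ p % A = 1 % A) with hPset
  have hPsub : Pset ⊆ QD i (i + 1) := by
    intro p hp
    rw [hPset, mem_filter] at hp
    unfold QD
    rw [mem_filter]
    exact ⟨(hPw p hp.1).1, hp.2.1⟩
  have hPc := hP₀ P (by omega)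
  set μ := um 𝓤 hU with hμ
  set s : ℝ := ∏ i, (-1 : ℝ) ^ e i with hs
  have hs1 : |s| = 1 := by
    rw [hs, abs_prod]
    apply prod_eq_one
    intro i _
    rw [abs_pow, abs_neg, abs_one, one_pow]
  have hdec := dec 𝓤 hU (alp f A) cW hε0 i (by omega) (hI₂ i (by omega)) hDf (Gp f V x e)
    (Gp_le f hb V x e) (by
      intro p hp n n' hwin j hj
      have hp2 : p ≤ 2 ^ (i + 1) := by
        unfold QD at hp
        rw [mem_filter, mem_Ioc] at hp
        exact hp.1.2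
      have hidx : ∀ t, t < cW * 2 ^ i → alp f A (n + t) = alp f A (n' + t) := by
        intro t ht
        exact congrFun hwin ⟨t, ht⟩
      have hbd : p * (1 + ∑ i, x i) ≤ cW * 2 ^ i := by
        have h3 : p * (1 + ∑ i, x i) ≤ 2 ^ (i + 1) * (1 + ∑ i, x i) := Nat.mul_le_mul_right _ hp2
        have h4 : 2 ^ (i + 1) * (1 + ∑ i, x i) = cW * 2 ^ i := by rw [hcW, pow_succ]; ring
        omega
      have h5 : p * (1 + ∑ i, x i) = p + p * ∑ i, x i := by ring
      have h2 : j < cW * 2 ^ i := by omega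
      unfold Gp
      congr 1
      · apply ind_at
        apply V_congr hV
        exact alp_mod (hidx j h2)
      · apply prod_congr rfl
        intro l _
        have h1 : j + p * x l < cW * 2 ^ i := by
          have h6 : x l ≤ ∑ i, x i := single_le_sum (f := x) (fun _ _ => Nat.zero_le _) (mem_univ l)
          have h7 : p * x l ≤ p * ∑ i, x i := Nat.mul_le_mul_left _ h6
          omega
        have e2 := alp_f hb (hidx (j + p * x l) h1)
        rw [add_assoc n j, e2, add_assoc n' j])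
    (univ : Finset (Fin k)) x s hs1.le ψ hψ Pset hPsub (by
      intro p hp m hm
      rw [hPset, mem_filter] at hp
      unfold Gp
      rw [hψd]
      simp only
      have e1 : ind V (p * m) = ind V m := by
        apply ind_at
        apply V_congr hV
        have h3 : p ≡ 1 [MOD A] := hp.2.2
        have := Nat.ModEq.mul_right m h3
        rwa [one_mul] at this
      rw [e1]
      have e2 : ∏ i, (f (p * m + p * x i) : ℝ) ^ e i = s * ∏ i, (f (m + x i) : ℝ) ^ e i := by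
        rw [hs, ← prod_mul_distrib]
        apply prod_congr rfl
        intro l _
        rw [show p * m + p * x l = p * (m + x l) by ring, hf p (m + x l) hp.2.1 (hm l (mem_univ l)),
          ← mul_pow]
        push_cast
        ring
      rw [e2]
      ring)
  rw [card_univ, Fintype.card_fin] at hdec
  have hI3 := hI₃ i (by omega)
  have hmany := many_good hκ0 hφA (le_of_eq hεd) i P (by omega) hP1 hP2 Pset hPsub hPc
    (fun p => |s * sS 𝓤 ψ p - μ.m (Gp f V x e p)|) (fun p => abs_nonneg _) (by linarith)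
  refine ⟨𝓤, hU, ?_, P, by omega, Pset.filter (fun p => |s * sS 𝓤 ψ p - μ.m (Gp f V x e p)| ≤ κ), ?_, hmany, ?_⟩
  · filter_upwards [hmem] with M hM
    exact hM.1
  · intro p hp
    rw [mem_filter, hPset, mem_filter] at hp
    exact ⟨hp.1.1, hp.1.2.1, hp.1.2.2⟩
  · intro p hp
    rw [mem_filter] at hp
    have hpI : p ∈ Ioc P ⌊(1 + κ) * P⌋₊ := (mem_filter.1 hp.1).1
    have hpp : p.Prime := QDp (hPsub hp.1)
    have hwin := (hPw p hpI).2
    have h1 : |sS 𝓤 ψ p₀| - 2 * κ ≤ |sS 𝓤 ψ p| := by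
      have h2 : |sS 𝓤 ψ p₀ - sS 𝓤 ψ p| ≤ 2 * κ := by
        rcases le_total p₀ p with h3 | h3
        · refine (sS_cont 𝓤 hU hψ (QDp hp₀).pos h3).trans ?_
          have := hwin.1 h3
          linarith
        · rw [abs_sub_comm]
          refine (sS_cont 𝓤 hU hψ hpp.pos h3).trans ?_
          have := hwin.2 h3
          linarith
      have := abs_sub_abs_le_abs_sub (sS 𝓤 ψ p₀) (sS 𝓤 ψ p)
      linarith
    have h3 := abs_sub_abs_le_abs_sub (s * sS 𝓤 ψ p) (μ.m (Gp f V x e p))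
    rw [abs_mul, hs1, one_mul] at h3
    linarith [hp.2]

end Pool.Agent.V5helper49.EU
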