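import Pool.Agent.Y958.U.Core
import Pool.Agent.V5helper49.EU.Good
import Pool.Agent.V5helper49.EU.AP
import Pool.Agent.V5helper49.EU.Alg

/-!
Library V5helper49.EU: the bound with the constant `2 ^ (- d)` for the Liouville function on periodic sets.
-/

set_option autoImplicit false

namespace Pool.Agent.V5helper49.EU

open Finset Filter Topology
open Pool.Agent.TH112.BL (Bd)
open Pool.Agent.TH823.MRS (ExpoSmall FlipAll lam_bdd lam_flip expo_lam)
open Pool.Agent.H376R2.MR (lam)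
open Pool.Agent.Y958.TC (NM ind Bd_ind m_class m_sum m_shift um Av)
open Pool.Agent.Y958.U

lemma ind_yes {P : ℕ → Prop} {n : ℕ} (h : P n) : ind P n = 1 := by
  unfold Pool.Agent.Y958.TC.ind; rw [if_pos h]

lemma ind_no {P : ℕ → Prop} {n : ℕ} (h : ¬ P n) : ind P n = 0 := by
  unfold Pool.Agent.Y958.TC.ind; rw [if_neg h]

lemma lam_pm (n : ℕ) : lam n = 1 ∨ lam n = -1 := by
  unfold lam
  exact neg_one_pow_eq_or ℤ _

/-- if the mean of `Gp p` is nearly `± v` then the relation attached to `p` holds; for a function with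
values `± 1` the exceptional set has half the measure -/
lemma rel2 (μ : NM) (f : ℕ → ℤ) (hf : ∀ n, f n = 1 ∨ f n = -1) (V : ℕ → Prop) {k d : ℕ} (x : Fin k → ℕ)
    (e : Fin k → ℕ) (he : ∀ i, e i = 1 ∨ e i = 2)
    (hx : Function.Injective x) (emb : Fin (d + 1) → Fin k) (hemb : Function.Injective emb)
    (himg : univ.image emb = univ.filter (fun i => e i = 1)) (p : ℕ) (hp : 1 ≤ p) (ρ : ℝ)
    (h : μ.m (ind V) - |μ.m (Gp f V x e p)| ≤ 2 * ρ) :
    HH μ (fun z => f z.toNat) V ρ (PP (fun j => (x (emb j) : ℤ)) (p : ℤ)) 1 := by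
  classical
  have hb : ∀ n, |f n| ≤ 1 := by
    intro n
    rcases hf n with h | h <;> rw [h] <;> norm_num
  set σ : ℤ := if 0 ≤ μ.m (Gp f V x e p) then 1 else -1 with hσ
  have hσ1 : σ = 1 ∨ σ = -1 := by rw [hσ]; split_ifs <;> simp
  have hσ2 : (σ : ℝ) * μ.m (Gp f V x e p) = |μ.m (Gp f V x e p)| := by
    rw [hσ]
    split_ifs with h0
    · rw [abs_of_nonneg h0]; norm_num
    · rw [abs_of_neg (not_le.1 h0)]; norm_num
  refine ⟨σ, hσ1, ?_⟩
  have hBG : Bd (Gp f V x e p) := ⟨1, fun n => Gp_le f hb V x e p n⟩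
  have hxe : Function.Injective (fun j => (x (emb j) : ℤ)) := by
    intro a b hab
    simp only [Nat.cast_inj] at hab
    exact hemb (hx hab)
  have h1 : 2 * μ.m (ind (fun n => V n ∧ Ph (fun z => f z.toNat) (PP (fun j => (x (emb j) : ℤ)) (p : ℤ)) n ≠ σ)) ≤
      μ.m (ind V) - σ * μ.m (Gp f V x e p) := by
    rw [← μ.smul _ _ hBG, ← μ.smul _ _ (Bd_ind _), ← μ.sub (Bd_ind V) (hBG.cmul _)]
    apply μ.mono ((Bd_ind _).cmul _)
    · have := (Bd_ind V).add (hBG.cmul (-(σ : ℝ)))
      refine (congrArg Bd ?_).mp this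
      funext n
      ring
    · intro n
      by_cases hV : V n
      · have e1 : ind V n = 1 := ind_yes hV
        have hP : Ph (fun z => f z.toNat) (PP (fun j => (x (emb j) : ℤ)) (p : ℤ)) n =
            ∏ i, (f (n + p * x i)) ^ e i := by
          rw [Ph_PP _ _ hxe _ (by omega)]
          have h5 := prod_exp (fun i => f (n + p * x i)) (fun i => by
            rcases hf (n + p * x i) with h | h
            · exact Or.inr (Or.inr h)
            · exact Or.inl h) e he (by
            apply prod_ne_zero_iff.2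
            intro i _
            apply pow_ne_zero
            rcases hf (n + p * x i) with h | h <;> rw [h] <;> norm_num)
          rw [h5, ← himg, prod_image (fun a _ b _ hab => hemb hab)]
          apply prod_congr rfl
          intro j _
          congr 1
        have hG : Gp f V x e p n = ((∏ i, (f (n + p * x i)) ^ e i : ℤ) : ℝ) := by
          unfold Gp
          rw [e1, one_mul]
          push_cast
          rfl
        have hval : ∏ i, (f (n + p * x i)) ^ e i = 1 ∨ ∏ i, (f (n + p * x i)) ^ e i = -1 := by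
          have h6 : ∀ s : Finset (Fin k), ∏ i ∈ s, (f (n + p * x i)) ^ e i = 1 ∨
              ∏ i ∈ s, (f (n + p * x i)) ^ e i = -1 := by
            intro s
            induction s using Finset.induction_on with
            | empty => left; simp
            | insert a s ha ih =>
              rw [prod_insert ha]
              have h7 : (f (n + p * x a)) ^ e a = 1 ∨ (f (n + p * x a)) ^ e a = -1 := by
                rcases hf (n + p * x a) with h | h
                · left; rw [h, one_pow]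
                · rw [h]; exact neg_one_pow_eq_or ℤ _
              rcases h7 with h | h <;> rcases ih with h' | h' <;> rw [h, h'] <;> norm_num
          exact h6 univ
        rw [e1, hG]
        by_cases hPs : Ph (fun z => f z.toNat) (PP (fun j => (x (emb j) : ℤ)) (p : ℤ)) n = σ
        · rw [ind_no (P := fun n => V n ∧ Ph (fun z => f z.toNat) (PP (fun j => (x (emb j) : ℤ)) (p : ℤ)) n ≠ σ)
            (fun h => h.2 hPs), ← hP, hPs]
          rcases hσ1 with h4 | h4 <;> rw [h4] <;> norm_num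
        · rw [ind_yes (P := fun n => V n ∧ Ph (fun z => f z.toNat) (PP (fun j => (x (emb j) : ℤ)) (p : ℤ)) n ≠ σ)
            ⟨hV, hPs⟩]
          rw [hP] at hPs
          rcases hval with h4 | h4 <;> rcases hσ1 with h5 | h5 <;> rw [h4, h5] at hPs ⊢ <;>
            first
              | exact absurd rfl hPs
              | norm_num
      · rw [ind_no (P := fun n => V n ∧ Ph (fun z => f z.toNat) (PP (fun j => (x (emb j) : ℤ)) (p : ℤ)) n ≠ σ)
          (fun h => hV h.1), ind_no hV]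
        unfold Gp
        rw [ind_no hV]
        simp
  push_cast
  rw [hσ2] at h1
  linarith

/-- one relation between `φ (n + y)` and a product not depending on `y` -/
lemma HH_one (μ : NM) (φ : ℤ → ℤ) (hφ : ∀ n, φ n = 1 ∨ φ n = -1) (V : ℕ → Prop) (ρ : ℝ) (g : LP) (y : ℤ) (b : ℕ)
    (h : HH μ φ V ρ (g + LaurentPolynomial.T y) b) :
    ∃ σ : ℤ, (σ = 1 ∨ σ = -1) ∧ μ.m (ind V) - 2 * (b * ρ) ≤
      μ.m (fun n => σ * (ind V n * ((Ph φ g n * φ (n + y) : ℤ) : ℝ))) := by
  classical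
  obtain ⟨σ, hσ, h2⟩ := h
  refine ⟨σ, hσ, ?_⟩
  have hφT : Tri φ := by
    intro n
    rcases hφ n with h | h
    · exact Or.inr (Or.inr h)
    · exact Or.inl h
  have hPg : ∀ (g : LP) (n : ℤ), Ph φ g n = 1 ∨ Ph φ g n = -1 := by
    intro g n
    unfold Ph
    induction g.coeff.support using Finset.induction_on with
    | empty => left; simp
    | insert z s hz ih =>
      rw [prod_insert hz]
      rcases hφ (n + z) with h | h <;> rcases ih with h' | h' <;> rw [h, h'] <;> norm_num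
  have hne : ∀ (g : LP) (n : ℤ), Ph φ g n ≠ 0 := by
    intro g n
    rcases hPg g n with h | h <;> rw [h] <;> norm_num
  have hT : ∀ n : ℤ, Ph φ (LaurentPolynomial.T y) n = φ (n + y) := by
    intro n
    have h1 := Ph_T φ y 1 n
    rw [mul_one] at h1
    rw [h1]
    unfold Ph
    have h3 : (1 : LP).coeff.support = {0} := by
      ext z
      rw [Finsupp.mem_support_iff, ← LaurentPolynomial.T_zero, LaurentPolynomial.T_apply, mem_singleton]
      by_cases hz : 0 = z
      · rw [if_pos hz]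
        simp [hz]
      · rw [if_neg hz]
        simp only [ne_eq, not_true_eq_false, false_iff]
        exact fun h => hz h.symm
    rw [h3, prod_singleton, add_zero]
  have hs : ∀ n : ℤ, Ph φ (g + LaurentPolynomial.T y) n = Ph φ g n * φ (n + y) := by
    intro n
    rw [Ph_add hφT g _ n (hne g n), hT]
  simp only [hs] at h2
  have hval : ∀ n : ℤ, Ph φ g n * φ (n + y) = 1 ∨ Ph φ g n * φ (n + y) = -1 := by
    intro n
    rcases hPg g n with h | h <;> rcases hφ (n + y) with h' | h' <;> rw [h, h'] <;> norm_num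
  have hB : Bd (fun n : ℕ => (σ : ℝ) * (ind V n * ((Ph φ g n * φ (n + y) : ℤ) : ℝ))) := by
    refine ⟨1, fun n => ?_⟩
    rw [abs_mul, abs_mul]
    have h1 : |ind V n| ≤ 1 := by
      unfold Pool.Agent.Y958.TC.ind; split_ifs <;> norm_num
    have h3 : |((Ph φ g n * φ (n + y) : ℤ) : ℝ)| = 1 := by
      rcases hval n with h | h <;> rw [h] <;> norm_num
    have h4 : |(σ : ℝ)| = 1 := by
      rcases hσ with h | h <;> rw [h] <;> norm_num
    rw [h3, h4]
    linarith
  have key : μ.m (ind V) ≤ μ.m (fun n => σ * (ind V n * ((Ph φ g n * φ (n + y) : ℤ) : ℝ)) +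
      2 * ind (fun n : ℕ => V n ∧ Ph φ g n * φ (n + y) ≠ σ) n) := by
    apply μ.mono (Bd_ind V) (hB.add ((Bd_ind _).cmul 2))
    intro n
    by_cases hV : V n
    · rw [ind_yes hV]
      by_cases h4 : Ph φ g n * φ (n + y) = σ
      · rw [ind_no (P := fun n : ℕ => V n ∧ Ph φ g n * φ (n + y) ≠ σ) fun h => h.2 h4, h4]
        rcases hσ with rfl | rfl <;> norm_num
      · rw [ind_yes (P := fun n : ℕ => V n ∧ Ph φ g n * φ (n + y) ≠ σ) ⟨hV, h4⟩]
        rcases hval n with h | h <;> rw [h] <;> rcases hσ with rfl | rfl <;> norm_num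
    · rw [ind_no hV, ind_no (P := fun n : ℕ => V n ∧ Ph φ g n * φ (n + y) ≠ σ) fun h => hV h.1]
      norm_num
  rw [μ.add _ _ hB ((Bd_ind _).cmul 2), μ.smul _ _ (Bd_ind _)] at key
  linarith

/-- **the bound with the constant `1 / (2 ^ d - 1)`** for the Liouville function on periodic sets -/
theorem main_expl (d : ℕ) (hd : 1 ≤ d) (c : ℝ) (hc0 : 0 < c) (hc : c * (2 ^ d - 1) < 1)
    (V : ℕ → Prop) (A : ℕ) (hA : 1 ≤ A) (hV : ∀ n, V (n + A) ↔ V n) (hv : 0 < dv V A)
    (k : ℕ) (x e : Fin k → ℕ) (hx : Function.Injective x) (he : ∀ i, e i = 1 ∨ e i = 2)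
    (hcard : (univ.filter (fun i => e i = 1)).card = d + 1) :
    LZ {N | (1 - c) * dv V A < |Av N (fun n => ind V n * ∏ i, (lam (n + x i) : ℝ) ^ e i)|} := by
  classical
  by_contra hcon
  set emb := (univ.filter (fun i => e i = 1)).orderEmbOfFin hcard with hembd
  have hemb : Function.Injective emb := emb.injective
  have himg : univ.image emb = univ.filter (fun i => e i = 1) :=
    Finset.image_orderEmbOfFin_univ _ hcard
  set x' : Fin (d + 1) → ℤ := fun j => (x (emb j) : ℤ) with hx'd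
  have hx' : Function.Injective x' := by
    intro a b hab
    simp only [hx'd, Nat.cast_inj] at hab
    exact hemb (hx hab)
  obtain ⟨L, Λ, hΛ, hAlg⟩ := alg d hd x' hx'
  set v : ℝ := dv V A with hvd
  have hv1 : v ≤ 1 := by
    rw [hvd]
    unfold dv
    have hA0 : (0 : ℝ) < A := by exact_mod_cast hA
    rw [div_le_one hA0]
    exact_mod_cast (card_filter_le _ _).trans (by rw [card_range])
  have h2d2 : (2 : ℝ) ≤ 2 ^ d := by
    calc (2 : ℝ) = 2 ^ 1 := by norm_num
      _ ≤ 2 ^ d := pow_le_pow_right₀ (by norm_num) hd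
  set M : ℝ := 2 ^ d - 1 with hM
  have hM1 : 1 ≤ M := by linarith
  set g : ℝ := (1 - c * M) * v with hg
  have hg0 : 0 < g := mul_pos (by linarith) hv
  have hg1 : g ≤ 1 := by
    rw [hg]
    have h1 : 0 ≤ c * M := by positivity
    nlinarith
  set κ : ℝ := g / (12 * M) with hκd
  have hκ0 : 0 < κ := by positivity
  have hκ1 : κ ≤ 1 / 4 := by
    rw [hκd, div_le_div_iff₀ (by positivity) (by norm_num)]
    nlinarith
  have hκg : M * (3 * κ) = g / 4 := by
    rw [hκd]
    field_simp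
    ring
  -- the number of shifts
  set K : ℕ := ⌈4 / g⌉₊ + 1 with hK
  have hKg : 4 / g ≤ K := (Nat.le_ceil _).trans (Nat.cast_le.2 (by omega))
  have hK0 : (0 : ℝ) < K := by exact_mod_cast (by omega : 0 < K)
  have hKg' : 1 / (K : ℝ) ≤ g / 4 := by
    rw [div_le_iff₀ hg0] at hKg
    rw [div_le_iff₀ hK0]
    linarith
  set Tn : ℕ := K ^ 2 with hTn
  obtain ⟨Pm, hPm⟩ := ap_good A hA κ hκ0 (by linarith) (2 * (L * Tn) + 1)
  obtain ⟨E', hE'Z, hE'⟩ := diag' (fun R : ℕ => E2 lam V A (R + 1) (g / (2 * K))) (fun R =>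
    E2_LZ s_avc lam lam_bdd lam_flip expo_lam V A (R + 1) hA hV (by omega) (g / (2 * K)) (by positivity))
  obtain ⟨𝓤, hU, hmem, P, hP, Good, hG, hGc, hGm⟩ := good_primes c lam lam_bdd lam_flip V A hA hV k x e hcon
    E' hE'Z κ hκ0 hκ1 Pm
  obtain ⟨a', D, hD, hAD, hAP⟩ := hPm P hP Good hG hGc
  set μ := um 𝓤 hU with hμ
  set ρ : ℝ := (c * v + 3 * κ) / 2 with hρ
  set φ : ℤ → ℤ := fun z => lam z.toNat with hφd
  have hφ1 : ∀ n, φ n = 1 ∨ φ n = -1 := fun n => lam_pm _
  have hφT : Tri φ := fun z => tri_f lam lam_bdd _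
  have hrel : ∀ p ∈ Good, HH μ φ V ρ (PP x' (p : ℤ)) 1 := by
    intro p hp
    apply rel2 μ lam lam_pm V x e he hx emb hemb himg p (hG p hp).2.1.one_le ρ
    have h1 := hGm p hp
    rw [m_V μ hA hV, ← hvd, hρ]
    linarith
  set a : ℤ := (a' : ℤ) + L * Tn * D with ha
  have hone : ∀ t ∈ Icc 1 Tn, ∃ σ : ℤ, (σ = 1 ∨ σ = -1) ∧ v - 2 * (M * ρ) ≤
      μ.m (fun n => σ * (ind V n * ((Ph φ (LaurentPolynomial.T (a * x' 0) + PP x' a) n *
        φ (n + (a * x' 0 + ((Λ * t * D : ℕ) : ℤ))) : ℤ) : ℝ))) := by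
    intro t ht
    rw [mem_Icc] at ht
    have h1 := hAlg A D a hAD (HH μ φ V ρ)
      (by
        refine ⟨1, Or.inl rfl, ?_⟩
        have h1 : ∀ n : ℕ, ¬ (V n ∧ Ph φ (0 : LP) n ≠ 1) := by
          rintro n ⟨-, h⟩
          apply h
          unfold Ph
          simp
        have h2 : (ind (fun n : ℕ => V n ∧ Ph φ (0 : LP) n ≠ 1)) = fun _ => 0 := by
          funext n
          exact ind_no (h1 n)
        rw [h2, Pool.Agent.Y958.TC.m_zero]
        simp)
      (fun g g' b b' => HH_add μ _ V ρ hφT g g' b b')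
      (fun g b t ht hg => HH_T μ _ V ρ A hV g b t ht hg) t
      (by
        intro i hi
        have h4 : |i| ≤ (L * Tn : ℕ) := by
          refine hi.trans ?_
          push_cast
          exact mul_le_mul_of_nonneg_left (by exact_mod_cast ht.2) (Nat.cast_nonneg L)
        rw [abs_le] at h4
        obtain ⟨j, hj⟩ := Int.eq_ofNat_of_zero_le (by linarith [h4.1] : 0 ≤ i + (L * Tn : ℕ))
        have hj2 : j < 2 * (L * Tn) + 1 := by
          have : (j : ℤ) ≤ 2 * (L * Tn : ℕ) := by rw [← hj]; linarith [h4.2]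
          omega
        have h1 := hrel _ (hAP j hj2)
        have h2 : ((a' + j * D : ℕ) : ℤ) = a + i * D := by
          have h5 : (j : ℤ) = i + L * Tn := by rw [← hj]; push_cast; ring
          push_cast
          rw [h5, ha]
          ring
        rw [h2] at h1
        exact h1)
    obtain ⟨σ, hσ, h2⟩ := HH_one μ φ hφ1 V ρ _ _ _ h1
    refine ⟨σ, hσ, ?_⟩
    rw [m_V μ hA hV, ← hvd] at h2
    have h3 : (((2 ^ d - 1 : ℕ)) : ℝ) = M := by
      rw [Nat.cast_sub Nat.one_le_two_pow]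
      push_cast
      rfl
    rw [h3] at h2
    exact h2
  choose! σ hσ hσm using hone
  set w : ℤ → ℤ := fun n => Ph φ (LaurentPolynomial.T (a * x' 0) + PP x' a) n with hw
  set y : ℕ → ℤ := fun t => a * x' 0 + ((Λ * t * D : ℕ) : ℤ) with hy
  have hσ1 : ∀ t ∈ Icc 1 Tn, |(σ t : ℝ)| = 1 := by
    intro t ht
    rcases hσ t ht with h | h <;> rw [h] <;> norm_num
  have hφr : ∀ n, |((φ n : ℤ) : ℝ)| = 1 := by
    intro n
    rcases hφ1 n with h | h <;> rw [h] <;> norm_num
  have hwr : ∀ n, |((w n : ℤ) : ℝ)| = 1 := by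
    intro n
    rw [hw]
    simp only
    unfold Ph
    rw [Int.cast_prod, abs_prod]
    exact prod_eq_one fun z _ => hφr _
  -- sum over the shifts
  have hBt : ∀ t ∈ Icc 1 Tn, Bd (fun n : ℕ => (σ t : ℝ) * (ind V n * ((w n * φ (n + y t) : ℤ) : ℝ))) := by
    intro t ht
    refine ⟨1, fun n => ?_⟩
    rw [abs_mul, abs_mul, hσ1 t ht]
    push_cast
    rw [abs_mul, hwr, hφr]
    have h1 : |ind V n| ≤ 1 := by
      unfold Pool.Agent.Y958.TC.ind; split_ifs <;> norm_num
    linarith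
  obtain ⟨hBs, hms⟩ := Pool.Agent.Y958.TC.m_sum μ (Icc 1 Tn) (fun _ => (1 : ℝ))
    (fun t n => (σ t : ℝ) * (ind V n * ((w n * φ (n + y t) : ℤ) : ℝ))) hBt
  have hlow : (Tn : ℝ) * (v - 2 * (M * ρ)) ≤
      μ.m (fun n => ∑ t ∈ Icc 1 Tn, (1 : ℝ) * ((σ t : ℝ) * (ind V n * ((w n * φ (n + y t) : ℤ) : ℝ)))) := by
    rw [hms]
    calc (Tn : ℝ) * (v - 2 * (M * ρ)) = ∑ t ∈ Icc 1 Tn, (v - 2 * (M * ρ)) := by
          rw [sum_const, Nat.card_Icc, Nat.add_sub_cancel, nsmul_eq_mul]
      _ ≤ _ := sum_le_sum fun t ht => by rw [one_mul]; exact hσm t ht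
  -- the square
  have hBtt : ∀ q ∈ Icc 1 Tn ×ˢ Icc 1 Tn,
      Bd (fun n : ℕ => ind V n * ((φ (n + y q.1) * φ (n + y q.2) : ℤ) : ℝ)) := by
    intro q _
    refine ⟨1, fun n => ?_⟩
    rw [abs_mul]
    push_cast
    rw [abs_mul, hφr, hφr]
    have h1 : |ind V n| ≤ 1 := by
      unfold Pool.Agent.Y958.TC.ind; split_ifs <;> norm_num
    linarith
  obtain ⟨hBq, hmq⟩ := Pool.Agent.Y958.TC.m_sum μ (Icc 1 Tn ×ˢ Icc 1 Tn) (fun q => (σ q.1 : ℝ) * σ q.2)
    (fun q n => ind V n * ((φ (n + y q.1) * φ (n + y q.2) : ℤ) : ℝ)) hBtt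
  have hpair : ∀ t ∈ Icc 1 Tn, ∀ t' ∈ Icc 1 Tn, t < t' →
      |μ.m (fun n : ℕ => ind V n * ((φ (n + y t) * φ (n + y t') : ℤ) : ℝ))| ≤ g / (2 * K) := by
    intro t ht t' ht' htt
    have hR : 1 ≤ Λ * (t' - t) * D := Nat.one_le_iff_ne_zero.2
      (Nat.mul_ne_zero (Nat.mul_ne_zero (by omega) (by omega)) (by omega))
    have h1 := two_bound 𝓤 hU lam lam_bdd V A (Λ * (t' - t) * D) hA hV (g / (2 * K)) (by
      obtain ⟨N₀, hN₀⟩ := hE' (Λ * (t' - t) * D - 1)
      rw [Nat.sub_add_cancel hR] at hN₀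
      filter_upwards [hmem, hU (eventually_ge_atTop N₀)] with M hM hM2
      intro hcc
      exact hM (hN₀ M hcc hM2)) (y t)
    refine le_trans (le_of_eq ?_) h1
    congr 2
    funext n
    have h2 : (n : ℤ) + y t + ((Λ * (t' - t) * D : ℕ) : ℤ) = n + y t' := by
      rw [hy]
      simp only
      have h3 : Λ * t' * D = Λ * t * D + Λ * (t' - t) * D := by
        obtain ⟨u, hu⟩ : ∃ u, t' = t + u := ⟨t' - t, by omega⟩
        rw [hu, Nat.add_sub_cancel_left]
        ring
      rw [h3]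
      push_cast
      ring
    rw [h2]
  have hsq : μ.m (fun n => ∑ q ∈ Icc 1 Tn ×ˢ Icc 1 Tn, (σ q.1 : ℝ) * σ q.2 *
      (ind V n * ((φ (n + y q.1) * φ (n + y q.2) : ℤ) : ℝ))) ≤ Tn * v + Tn ^ 2 * (g / (2 * K)) := by
    rw [hmq]
    have h1 : ∀ q ∈ Icc 1 Tn ×ˢ Icc 1 Tn, (σ q.1 : ℝ) * σ q.2 *
        μ.m (fun n : ℕ => ind V n * ((φ (n + y q.1) * φ (n + y q.2) : ℤ) : ℝ)) ≤
        (if q.1 = q.2 then v else 0) + g / (2 * K) := by
      intro q hq
      rw [mem_product] at hq
      have h0 : 0 ≤ g / (2 * K) := by positivity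
      refine (le_abs_self _).trans ?_
      rw [abs_mul, abs_mul, hσ1 _ hq.1, hσ1 _ hq.2, one_mul, one_mul]
      rcases lt_trichotomy q.1 q.2 with h | h | h
      · rw [if_neg h.ne, zero_add]
        exact hpair _ hq.1 _ hq.2 h
      · rw [if_pos h, h]
        have h3 : (fun n : ℕ => ind V n * ((φ (n + y q.2) * φ (n + y q.2) : ℤ) : ℝ)) = ind V := by
          funext n
          rcases hφ1 (n + y q.2) with h | h <;> rw [h] <;> norm_num
        rw [h3, m_V μ hA hV, ← hvd, abs_of_pos hv]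
        linarith
      · rw [if_neg h.ne', zero_add]
        have h4 := hpair _ hq.2 _ hq.1 h
        have h5 : (fun n : ℕ => ind V n * ((φ (n + y q.1) * φ (n + y q.2) : ℤ) : ℝ)) =
            fun n : ℕ => ind V n * ((φ (n + y q.2) * φ (n + y q.1) : ℤ) : ℝ) := by
          funext n
          rw [mul_comm (φ (n + y q.1))]
        rw [h5]
        exact h4
    refine (sum_le_sum h1).trans (le_of_eq ?_)
    rw [sum_add_distrib, sum_const, card_product, Nat.card_Icc, Nat.add_sub_cancel, nsmul_eq_mul, sum_product]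
    have h2 : ∀ t ∈ Icc 1 Tn, ∑ t' ∈ Icc 1 Tn, (if t = t' then v else 0) = v := by
      intro t ht
      rw [sum_ite_eq, if_pos ht]
    rw [sum_congr rfl h2, sum_const, Nat.card_Icc, Nat.add_sub_cancel, nsmul_eq_mul]
    push_cast
    ring
  -- the inequality between the means
  have hup : μ.m (fun n => ∑ t ∈ Icc 1 Tn, (1 : ℝ) * ((σ t : ℝ) * (ind V n * ((w n * φ (n + y t) : ℤ) : ℝ)))) ≤
      (K / 2) * v + (1 / (2 * K)) * μ.m (fun n => ∑ q ∈ Icc 1 Tn ×ˢ Icc 1 Tn, (σ q.1 : ℝ) * σ q.2 *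
      (ind V n * ((φ (n + y q.1) * φ (n + y q.2) : ℤ) : ℝ))) := by
    rw [hvd, ← m_V μ hA hV, ← μ.smul _ _ (Bd_ind V), ← μ.smul _ _ hBq,
      ← μ.add _ _ ((Bd_ind V).cmul _) (hBq.cmul _)]
    apply μ.mono hBs (((Bd_ind V).cmul _).add (hBq.cmul _))
    intro n
    set S : ℝ := ∑ t ∈ Icc 1 Tn, (σ t : ℝ) * ((φ (n + y t) : ℤ) : ℝ) with hS
    have e1 : ∑ t ∈ Icc 1 Tn, (1 : ℝ) * ((σ t : ℝ) * (ind V n * ((w n * φ (n + y t) : ℤ) : ℝ))) =
        ind V n * ((w n : ℤ) : ℝ) * S := by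
      rw [hS, mul_sum]
      apply sum_congr rfl
      intro t _
      push_cast
      ring
    have e2 : ∑ q ∈ Icc 1 Tn ×ˢ Icc 1 Tn, (σ q.1 : ℝ) * σ q.2 *
        (ind V n * ((φ (n + y q.1) * φ (n + y q.2) : ℤ) : ℝ)) = ind V n * (S * S) := by
      rw [sum_product, hS, sum_mul_sum, mul_sum]
      apply sum_congr rfl
      intro t _
      rw [mul_sum]
      apply sum_congr rfl
      intro t' _
      push_cast
      ring
    rw [e1, e2]
    by_cases hVn : V n
    · rw [ind_yes hVn, one_mul, one_mul, mul_one]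
      have h1 : ((w n : ℤ) : ℝ) * S ≤ |S| := by
        refine (le_abs_self _).trans ?_
        rw [abs_mul, hwr, one_mul]
      refine h1.trans ?_
      have h2 : |S| * |S| = S * S := abs_mul_abs_self S
      rw [← h2]
      have h3 : 0 ≤ (|S| - K) ^ 2 := sq_nonneg _
      have h4 : (K / 2 : ℝ) + 1 / (2 * K) * (|S| * |S|) - |S| = (|S| - K) ^ 2 / (2 * K) := by
        field_simp
        ring
      have h5 : 0 ≤ (|S| - K) ^ 2 / (2 * K) := by positivity
      linarith
    · rw [ind_no hVn]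
      simp
  have hfin := hlow.trans (hup.trans (add_le_add le_rfl (mul_le_mul_of_nonneg_left hsq (by positivity))))
  have hTr : (Tn : ℝ) = K ^ 2 := by rw [hTn]; push_cast; ring
  rw [hTr] at hfin
  have h10 : (K : ℝ) / 2 * v + 1 / (2 * K) * (K ^ 2 * v + (K ^ 2) ^ 2 * (g / (2 * K))) =
      K ^ 2 * (v * (1 / K) + g / 4) := by
    field_simp
    ring
  rw [h10] at hfin
  have h11 : v - 2 * (M * ρ) ≤ v * (1 / K) + g / 4 := le_of_mul_le_mul_left hfin (by positivity)
  have h12 : v * (1 / K) ≤ g / 4 := by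
    calc v * (1 / K) ≤ 1 * (1 / K) := mul_le_mul_of_nonneg_right hv1 (by positivity)
      _ ≤ g / 4 := by rw [one_mul]; exact hKg'
  have h13 : 2 * (M * ρ) = c * M * v + g / 4 := by
    rw [hρ, ← hκg]
    ring
  have h14 : g = v - c * M * v := by rw [hg]; ring
  linarith

end Pool.Agent.V5helper49.EU
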