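import Pool.Agent.Y958.U.Mob
import Pool.Agent.V5helper49.EU.Rel

/-!
Library V5helper49.EU: the explicit uniform bound for autocorrelations of the Moebius function.
-/

set_option autoImplicit false

namespace Pool.Agent.V5helper49.EU

open Finset Filter Topology
open Pool.Agent.H376R2.MR (lam)
open Pool.Agent.Y958.TC (ind Av)
open Pool.Agent.Y958.U

/-- the Liouville function along shifts, on the set where given shifts are squarefree -/
theorem core_expl (s : ℕ) (hs : 2 ≤ s) (c : ℝ) (hc0 : 0 < c) (hc : c * (2 ^ (s - 1) - 1) < 1)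
    (b : Fin s → ℕ) (hb : Function.Injective b) (t : ℕ) (x : Fin t → ℕ) :
      (∃ W, ∀ n, ¬ VL (fun _ => 1) x W n) ∨
      ((∃ β : ℝ, 0 < β ∧ ∃ N₁ : ℕ, ∀ N : ℕ, N₁ ≤ N → β * N ≤ ∑ n ∈ Icc 1 N, ind (SF (fun _ => 1) x) n) ∧
        LZ {N | (1 - c) * ∑ n ∈ Icc 1 N, ind (SF (fun _ => 1) x) n <
          |∑ n ∈ Icc 1 N, ind (SF (fun _ => 1) x) n * FF (fun _ => 1) b n|}) := by
  classical
  obtain ⟨d, rfl⟩ : ∃ d, s = d + 1 := ⟨s - 1, by omega⟩
  rw [Nat.add_sub_cancel] at hc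
  have h2d2 : (2 : ℝ) ≤ 2 ^ d := by
    calc (2 : ℝ) = 2 ^ 1 := by norm_num
      _ ≤ 2 ^ d := pow_le_pow_right₀ (by norm_num) (by omega)
  -- a slightly larger constant
  set M : ℝ := 2 ^ d - 1 with hM
  have hM1 : 1 ≤ M := by linarith
  have hM0 : 0 < M := by linarith
  set c' : ℝ := (c + 1 / M) / 2 with hc'
  have hcl : c < 1 / M := by
    rw [lt_div_iff₀ hM0]
    exact hc
  have hcc' : c < c' := by rw [hc']; linarith
  have hc'1 : c' < 1 / M := by rw [hc']; linarith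
  have hc'0 : 0 < c' := by linarith
  have hc'2 : c' * M < 1 := by
    rw [lt_div_iff₀ hM0] at hc'1
    exact hc'1
  have hchalf : c' < 1 := by
    refine hc'1.trans_le ?_
    rw [div_le_one hM0]
    exact hM1
  set τ : ℝ := c' - c with hτ
  have hτ0 : 0 < τ := by linarith
  obtain ⟨W, hW2, hSQ⟩ := sqfl (fun _ : Fin t => 1) x (fun _ => le_rfl) (τ / 8) (by positivity)
  set A1 : ℕ := AW W with hA1d
  have hA1 : 1 ≤ A1 := AW_pos W
  set V : ℕ → Prop := VL (fun _ => 1) x W with hVd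
  have hVper : ∀ n, V (n + A1) ↔ V n := VL_per (fun _ => 1) x W
  set v : ℝ := dv V A1 with hvd
  have hv0 : 0 ≤ v := by rw [hvd]; unfold dv; positivity
  rcases hv0.lt_or_eq with hv | hv
  swap
  · left
    refine ⟨W, fun n hn => ?_⟩
    have h1 : n % A1 ∈ (range A1).filter V :=
      mem_filter.2 ⟨mem_range.2 (Nat.mod_lt _ (by omega)), (V_congr hVper (Nat.mod_modEq n A1)).2 hn⟩
    have h2 : 0 < (((range A1).filter V).card : ℝ) := by exact_mod_cast card_pos.2 ⟨_, h1⟩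
    have h3 : (0 : ℝ) < A1 := by exact_mod_cast hA1
    have h4 : 0 < v := by
      rw [hvd]
      unfold dv
      have : 0 < (((range A1).filter V).card : ℝ) / A1 := by positivity
      convert this
    linarith
  right
  obtain ⟨N₀, hN₀⟩ := hSQ hv
  have hA10 : (0 : ℝ) < A1 := by exact_mod_cast hA1
  -- lower bound for the squarefree set
  have hlow : ∀ N : ℕ, N₀ ≤ N → (1 - τ / 8) * (v * (N + 1)) - 1 ≤ ∑ n ∈ Icc 1 N, ind (SF (fun _ => 1) x) n := by
    intro N hN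
    have h1 := hN₀ (N + 1) (by omega)
    have h2 : (((range (N + 1)).filter (fun n => ∀ i, Squarefree ((fun _ : Fin t => 1) i * n + x i))).card : ℝ) =
        ∑ n ∈ range (N + 1), ind (SF (fun _ => 1) x) n := by
      rw [sum_ind]
      congr!
    rw [h2, sum_range_succ', sum_range_Icc (fun n => ind (SF (fun _ => 1) x) n) N] at h1
    push_cast at h1
    have h3 := ind_le (SF (fun _ => 1) x) 0
    linarith
  refine ⟨⟨v / 4, by positivity, N₀ + ⌈4 / v⌉₊, fun N hN => ?_⟩, ?_⟩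
  · have h1 := hlow N (by omega)
    have h2 : 4 / v ≤ N := (Nat.le_ceil _).trans (Nat.cast_le.2 (by omega))
    rw [div_le_iff₀ hv] at h2
    have h3 : (1 / 2 : ℝ) * (v * (N + 1)) ≤ (1 - τ / 8) * (v * (N + 1)) :=
      mul_le_mul_of_nonneg_right (by linarith) (by positivity)
    nlinarith
  have h1 := main_expl d (by omega) c' hc'0 hc'2 V A1 hA1 hVper hv (d + 1) b (fun _ => 1) hb
    (fun _ => Or.inl rfl) (by simp)
  set E : Set ℕ := {N | (1 - c') * v <
    |Av N (fun n => ind V n * ∏ i, ((lam (n + b i) : ℤ) : ℝ) ^ 1)|} with hE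
  set K : ℕ := N₀ + ⌈(4 * (v * A1 + 6)) / (τ * v)⌉₊ with hK
  have h2 := LZ_union (LZ_pull E 1 le_rfl h1) (LZ_bdd {N | N < K} _ fun n hn => hn)
  refine LZ_sub ?_ h2
  intro N hN
  by_cases hNK : N < K
  · exact Or.inr hNK
  left
  rw [Set.mem_setOf_eq] at hN ⊢
  rw [hE, Set.mem_setOf_eq]
  by_contra hcon
  rw [not_lt] at hcon
  have hNr : (4 * (v * A1 + 6)) / (τ * v) ≤ N := (Nat.le_ceil _).trans (Nat.cast_le.2 (by omega))
  rw [div_le_iff₀ (by positivity)] at hNr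
  have hAv : Av (1 * (N + 1)) (fun n => ind V n * ∏ i, ((lam (n + b i) : ℤ) : ℝ) ^ 1) =
      (∑ n ∈ range (N + 1), ind V n * FF (fun _ => 1) b n) / ((N : ℝ) + 1) := by
    unfold Pool.Agent.Y958.TC.Av
    rw [one_mul]
    congr 1
    · apply sum_congr rfl
      intro n _
      have hp : (∏ i, ((lam (n + b i) : ℤ) : ℝ) ^ 1) = FF (fun _ => 1) b n := by
        unfold FF
        apply prod_congr rfl
        intro i _
        rw [pow_one, lam_real, one_mul]
      show ind V n * (∏ i, ((lam (n + b i) : ℤ) : ℝ) ^ 1) = _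
      rw [hp]
    · push_cast
      ring
  rw [hAv, abs_div, abs_of_pos (by positivity : (0 : ℝ) < (N : ℝ) + 1), div_le_iff₀ (by positivity),
    sum_range_succ', sum_range_Icc (fun n => ind V n * FF (fun _ => 1) b n) N] at hcon
  have hz : |ind V 0 * FF (fun _ => 1) b 0| ≤ 1 := by
    rw [abs_mul, abs_of_nonneg (Pool.Agent.Y958.U.ind_nonneg V 0)]
    calc ind V 0 * |FF (fun _ => 1) b 0| ≤ 1 * 1 :=
          mul_le_mul (ind_le V 0) (FF_le _ b 0) (abs_nonneg _) zero_le_one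
      _ = 1 := one_mul 1
  have hbV : |∑ n ∈ Icc 1 N, ind V n * FF (fun _ => 1) b n| ≤ (1 - c') * v * (N + 1) + 1 := by
    have h4 := abs_sub_abs_le_abs_sub (∑ n ∈ Icc 1 N, ind V n * FF (fun _ => 1) b n)
      (-(ind V 0 * FF (fun _ => 1) b 0))
    rw [abs_neg, sub_neg_eq_add] at h4
    linarith
  -- the difference of the two weights
  have hdiff : |∑ n ∈ Icc 1 N, ind (SF (fun _ => 1) x) n * FF (fun _ => 1) b n -
      ∑ n ∈ Icc 1 N, ind V n * FF (fun _ => 1) b n| ≤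
      ∑ n ∈ Icc 1 N, ind V n - ∑ n ∈ Icc 1 N, ind (SF (fun _ => 1) x) n := by
    rw [← sum_sub_distrib, ← sum_sub_distrib]
    refine (abs_sum_le_sum_abs _ _).trans (sum_le_sum fun n _ => ?_)
    rw [← sub_mul, abs_mul]
    have h5 : ind (SF (fun _ => 1) x) n ≤ ind V n := by
      by_cases h : SF (fun _ => 1) x n
      · rw [ind_pos' (P := V) (SF_VL (fun _ => 1) x W n h)]
        exact ind_le _ _
      · rw [ind_neg' h]
        exact Pool.Agent.Y958.U.ind_nonneg _ _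
    rw [abs_of_nonpos (by linarith)]
    have h6 := FF_le (fun _ => 1) b n
    nlinarith
  have hup : ∑ n ∈ Icc 1 N, ind V n ≤ v * (N + 1) + v * A1 := by
    have h5 : ∑ n ∈ Icc 1 N, ind V n ≤ ∑ n ∈ range (N + 1), ind V n := by
      apply sum_le_sum_of_subset_of_nonneg
      · intro n hn
        rw [mem_Icc] at hn
        rw [mem_range]
        omega
      · intro n _ _
        exact Pool.Agent.Y958.U.ind_nonneg _ _
    refine h5.trans ?_
    rw [sum_ind]
    have h6 := class_bound V A1 1 0 (N + 1) hA1 le_rfl (Nat.coprime_one_right A1) hVper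
    have h7 : (((range (N + 1)).filter V).card : ℝ) ≤
        (((range (N + 1)).filter (fun n => V n ∧ 1 ∣ n + 0)).card : ℝ) := by
      apply Nat.cast_le.2
      apply card_le_card
      intro n hn
      rw [mem_filter] at hn ⊢
      exact ⟨hn.1, hn.2, one_dvd _⟩
    refine h7.trans (h6.trans (le_of_eq ?_))
    push_cast
    rw [← hvd]
    ring
  have hQ := hlow N (by omega)
  have hf1 := abs_le.1 hdiff
  have hf2 := abs_le.1 hbV
  set Q := ∑ n ∈ Icc 1 N, ind (SF (fun _ => 1) x) n with hQd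
  set R := ∑ n ∈ Icc 1 N, ind (SF (fun _ => 1) x) n * FF (fun _ => 1) b n with hRd
  set R' := ∑ n ∈ Icc 1 N, ind V n * FF (fun _ => 1) b n with hR'd
  have hR : |R| ≤ (1 - c') * v * (N + 1) + 1 + (v * (N + 1) + v * A1 - Q) := by
    rw [abs_le]
    constructor <;> linarith [hf1.1, hf1.2, hf2.1, hf2.2]
  have hvN : 0 ≤ v * ((N : ℝ) + 1) := by positivity
  have key : (2 - c) * ((1 - τ / 8) * (v * (N + 1)) - 1) ≤ (2 - c) * Q :=
    mul_le_mul_of_nonneg_left hQ (by linarith)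
  have hNr' : 4 * (v * A1 + 6) ≤ τ * (v * (N + 1)) := by
    have : 0 ≤ τ * v := by positivity
    nlinarith
  have hτc : c' = c + τ := by rw [hτ]; ring
  rw [hτc] at hR
  have h20 : (1 - (c + τ)) * v * (N + 1) = v * (N + 1) - c * (v * (N + 1)) - τ * (v * (N + 1)) := by ring
  rw [h20] at hR
  have h21 : (2 - c) * ((1 - τ / 8) * (v * (N + 1)) - 1) =
      2 * (v * (N + 1)) - c * (v * (N + 1)) - τ / 4 * (v * (N + 1)) + c * (τ / 8) * (v * (N + 1)) - 2 + c := by
    ring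
  rw [h21] at key
  have h22 : 0 ≤ c * (τ / 8) * (v * (N + 1)) := by positivity
  have h23 : 0 ≤ v * A1 := by positivity
  nlinarith

/-- the Moebius function, one family of shifts -/
theorem mob_shift_expl (s : ℕ) (hs : 2 ≤ s) (c : ℝ) (hc0 : 0 < c) (hc : c * (2 ^ (s - 1) - 1) < 1)
    (r : ℕ) (α : Fin r → ℤ) (ε : Fin r → ℕ)
    (hα : Function.Injective α) (hε : ∀ i, ε i = 1 ∨ ε i = 2) (hcard : (univ.filter (fun i => ε i = 1)).card = s) :
      (∀ n, GG α (fun _ => 2) n = 0) ∨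
      ((∃ β : ℝ, 0 < β ∧ ∃ N₁ : ℕ, ∀ N : ℕ, N₁ ≤ N → β * N ≤ ∑ n ∈ Icc 1 N, GG α (fun _ => 2) n) ∧
        LZ {N | (1 - c) * ∑ n ∈ Icc 1 N, GG α (fun _ => 2) n < |∑ n ∈ Icc 1 N, GG α ε n|}) := by
  classical
  have h2d2 : (2 : ℝ) ≤ 2 ^ (s - 1) := by
    calc (2 : ℝ) = 2 ^ 1 := by norm_num
      _ ≤ 2 ^ (s - 1) := pow_le_pow_right₀ (by norm_num) (by omega)
  set M : ℝ := 2 ^ (s - 1) - 1 with hM
  have hM1 : 1 ≤ M := by linarith
  have hM0 : 0 < M := by linarith
  set c' : ℝ := (c + 1 / M) / 2 with hc'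
  have hcl : c < 1 / M := by
    rw [lt_div_iff₀ hM0]
    exact hc
  have hcc' : c < c' := by rw [hc']; linarith
  have hc'1 : c' < 1 / M := by rw [hc']; linarith
  have hc'0 : 0 < c' := by linarith
  have hc'2 : c' * M < 1 := by
    rw [lt_div_iff₀ hM0] at hc'1
    exact hc'1
  have hchalf : c' < 1 := by
    refine hc'1.trans_le ?_
    rw [div_le_one hM0]
    exact hM1
  set τ : ℝ := c' - c with hτ
  have hτ0 : 0 < τ := by linarith
  set m0 : ℕ := ∑ i, (α i).natAbs with hm0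
  have hm : ∀ i, -(m0 : ℤ) ≤ α i := by
    intro i
    have h1 : (α i).natAbs ≤ m0 := single_le_sum (f := fun i => (α i).natAbs) (fun _ _ => Nat.zero_le _) (mem_univ i)
    omega
  set x : Fin r → ℕ := fun i => (α i + m0).toNat with hx
  have hxZ : ∀ i, (x i : ℤ) = α i + m0 := by
    intro i
    simp only [hx]
    rw [Int.toNat_of_nonneg]
    have := hm i
    omega
  have hxinj : Function.Injective x := by
    intro i j hij
    apply hα
    have h1 := hxZ i
    have h2 := hxZ j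
    rw [hij] at h1
    omega
  have hcard' : Fintype.card {i // ε i = 1} = s := by
    rw [Fintype.card_subtype]
    exact hcard
  set σ : Fin s ≃ {i // ε i = 1} := (Fintype.equivFinOfCardEq hcard').symm with hσ
  set b : Fin s → ℕ := fun j => x (σ j).1 with hb
  have hbinj : Function.Injective b := by
    intro i j hij
    have h1 := hxinj hij
    exact σ.injective (Subtype.ext h1)
  have hto : ∀ n i, ((n + m0 : ℕ) + α i : ℤ).toNat = 1 * n + x i := by
    intro n i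
    have h1 := hxZ i
    have h2 : ((n + m0 : ℕ) + α i : ℤ) = ((1 * n + x i : ℕ) : ℤ) := by
      push_cast
      rw [h1]
      ring
    rw [h2, Int.toNat_natCast]
  have hG2 : ∀ n, GG α (fun _ => 2) (n + m0) = ind (SF (fun _ => 1) x) n := by
    intro n
    unfold GG
    by_cases h : SF (fun _ => 1) x n
    · rw [ind_pos' h]
      apply prod_eq_one
      intro i _
      rw [hto, moeb_sq, if_pos (h i)]
    · rw [ind_neg' h]
      unfold SF at h
      push Not at h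
      obtain ⟨i, hi⟩ := h
      apply prod_eq_zero (mem_univ i)
      rw [hto, moeb_sq, if_neg hi]
  have hG1 : ∀ n, GG α ε (n + m0) = ind (SF (fun _ => 1) x) n * FF (fun _ => 1) b n := by
    intro n
    unfold GG
    by_cases h : SF (fun _ => 1) x n
    · rw [ind_pos' h, one_mul]
      unfold FF
      have e1 : ∀ i, ((ArithmeticFunction.moebius ((n + m0 : ℕ) + α i : ℤ).toNat : ℤ) : ℝ) ^ ε i =
          if ε i = 1 then (-1 : ℝ) ^ ArithmeticFunction.cardFactors (1 * n + x i) else 1 := by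
        intro i
        rw [hto]
        by_cases hi : ε i = 1
        · rw [if_pos hi, hi, pow_one, ArithmeticFunction.moebius_apply_of_squarefree (h i)]
          push_cast
          rfl
        · rw [if_neg hi, (hε i).resolve_left hi, moeb_sq, if_pos (h i)]
      rw [prod_congr rfl fun i _ => e1 i, ← prod_filter]
      have e2 : ∏ i ∈ univ.filter (fun i => ε i = 1), (-1 : ℝ) ^ ArithmeticFunction.cardFactors (1 * n + x i) =
          ∏ i : {i // ε i = 1}, (-1 : ℝ) ^ ArithmeticFunction.cardFactors (1 * n + x i.1) := by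
        rw [← prod_subtype_eq_prod_filter, subtype_univ]
      rw [e2]
      exact (Equiv.prod_comp σ (fun i : {i // ε i = 1} =>
        (-1 : ℝ) ^ ArithmeticFunction.cardFactors (1 * n + x i.1))).symm
    · rw [ind_neg' h, zero_mul]
      unfold SF at h
      push Not at h
      obtain ⟨i, hi⟩ := h
      apply prod_eq_zero (mem_univ i)
      rw [hto, ArithmeticFunction.moebius_eq_zero_of_not_squarefree hi, Int.cast_zero, zero_pow]
      rcases hε i with h | h <;> omega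
  rcases core_expl s hs c' hc'0 hc'2 b hbinj r x with hW | ⟨hβ, hLZ⟩
  · left
    obtain ⟨W, hW⟩ := hW
    intro n
    by_contra hne
    have hsq : ∀ i, Squarefree ((n : ℤ) + α i).toNat := by
      intro i
      by_contra hi
      apply hne
      unfold GG
      apply prod_eq_zero (mem_univ i)
      rw [moeb_sq, if_neg hi]
    apply hW (n + (AW W - 1) * m0)
    intro i q hq hqW hd
    have hpos : 0 < ((n : ℤ) + α i).toNat := Nat.pos_of_ne_zero (hsq i).ne_zero
    have h1 : 1 * (n + (AW W - 1) * m0) + x i = ((n : ℤ) + α i).toNat + AW W * m0 := by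
      have h2 := hxZ i
      have h3 : (((n : ℤ) + α i).toNat : ℤ) = n + α i := Int.toNat_of_nonneg (by omega)
      have h4 : (AW W - 1) * m0 + m0 = AW W * m0 := by
        have := AW_pos W
        calc (AW W - 1) * m0 + m0 = (AW W - 1 + 1) * m0 := by ring
          _ = AW W * m0 := by rw [Nat.sub_add_cancel this]
      have h5 : ((1 * (n + (AW W - 1) * m0) + x i : ℕ) : ℤ) =
          ((((n : ℤ) + α i).toNat + AW W * m0 : ℕ) : ℤ) := by
        rw [← h4]
        push_cast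
        rw [h3, h2]
        ring
      exact_mod_cast h5
    rw [h1] at hd
    have hdA : q ^ 2 ∣ AW W * m0 := by
      apply Dvd.dvd.mul_right
      unfold AW
      exact pow_dvd_pow_of_dvd ((Nat.Prime.dvd_factorial hq).2 hqW) 2
    rw [Nat.dvd_add_left hdA, sq] at hd
    exact (Nat.squarefree_iff_prime_squarefree.1 (hsq i)) q hq hd
  · right
    obtain ⟨β, hβ0, N₁, hβN⟩ := hβ
    have hs2 : ∀ N, |∑ n ∈ Icc 1 N, ind (SF (fun _ => 1) x) n - ∑ n ∈ Icc 1 N, GG α (fun _ => 2) n| ≤ 2 * m0 := by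
      intro N
      have := shift_sum (GG α (fun _ => 2)) (GG_le α _) m0 N
      rw [sum_congr rfl fun n _ => hG2 n] at this
      exact this
    have hs1 : ∀ N, |∑ n ∈ Icc 1 N, ind (SF (fun _ => 1) x) n * FF (fun _ => 1) b n -
        ∑ n ∈ Icc 1 N, GG α ε n| ≤ 2 * m0 := by
      intro N
      have := shift_sum (GG α ε) (GG_le α _) m0 N
      rw [sum_congr rfl fun n _ => hG1 n] at this
      exact this
    refine ⟨⟨β / 2, by positivity, N₁ + ⌈4 * m0 / β⌉₊, fun N hN => ?_⟩, ?_⟩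
    · have h1 := hβN N (by omega)
      have h2 : 4 * m0 / β ≤ N := (Nat.le_ceil _).trans (Nat.cast_le.2 (by omega))
      rw [div_le_iff₀ hβ0] at h2
      have h3 := abs_le.1 (hs2 N)
      linarith [h3.1, h3.2]
    · set K : ℕ := N₁ + ⌈8 * m0 / (τ * β)⌉₊ with hK
      refine LZ_sub ?_ (LZ_union hLZ (LZ_bdd {N | N < K} _ fun n hn => hn))
      intro N hN
      by_cases hNK : N < K
      · exact Or.inr hNK
      left
      rw [Set.mem_setOf_eq] at hN ⊢
      have h1 := hβN N (by omega)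
      have h2 : 8 * m0 / (τ * β) ≤ N := (Nat.le_ceil _).trans (Nat.cast_le.2 (by omega))
      rw [div_le_iff₀ (by positivity)] at h2
      have h3 := abs_le.1 (hs2 N)
      have h4 := abs_sub_abs_le_abs_sub (∑ n ∈ Icc 1 N, GG α ε n)
        (∑ n ∈ Icc 1 N, ind (SF (fun _ => 1) x) n * FF (fun _ => 1) b n)
      rw [abs_sub_comm] at h4
      have h5 := hs1 N
      have h6 : τ * (β * N) ≤ τ * ∑ n ∈ Icc 1 N, ind (SF (fun _ => 1) x) n :=
        mul_le_mul_of_nonneg_left h1 hτ0.le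
      have hτc : c' = c + τ := by rw [hτ]; ring
      rw [hτc]
      set S2 := ∑ n ∈ Icc 1 N, ind (SF (fun _ => 1) x) n with hS2
      set G2 := ∑ n ∈ Icc 1 N, GG α (fun _ => 2) n with hG2d
      have h7 : (1 - c) * S2 - 2 * m0 ≤ (1 - c) * G2 := by
        have h8 : (1 - c) * (S2 - G2) ≤ 1 * (2 * m0) := by
          calc (1 - c) * (S2 - G2) ≤ (1 - c) * (2 * m0) :=
                mul_le_mul_of_nonneg_left h3.2 (by linarith)
            _ ≤ 1 * (2 * m0) := mul_le_mul_of_nonneg_right (by linarith) (by positivity)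
        linarith
      have h9 : (8 : ℝ) * m0 ≤ τ * S2 := by linarith
      have h10 : (0 : ℝ) ≤ m0 := Nat.cast_nonneg _
      linarith

/-- from almost all scales to logarithmic averages, relative to a weight -/
lemma log_rel2 (F P : ℕ → ℝ) (hP0 : ∀ n, 0 ≤ P n) (hP1 : ∀ n, P n ≤ 1) (hFP : ∀ n, |F n| ≤ P n)
    (c c₁ : ℝ) (hc1 : 0 < c₁) (hcc : c₁ < c) (hc : c < 1) (E : Set ℕ) (hE : LZ E) (N₀ : ℕ)
    (h : ∀ N : ℕ, N₀ ≤ N → N ∉ E → |∑ n ∈ Icc 1 N, F n| ≤ (1 - c) * ∑ n ∈ Icc 1 N, P n)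
    (β : ℝ) (hβ : 0 < β) (N₁ : ℕ) (hlow : ∀ N : ℕ, N₁ ≤ N → β * N ≤ ∑ n ∈ Icc 1 N, P n) :
    ∃ X₀ : ℕ, ∀ X : ℕ, X₀ ≤ X → |∑ n ∈ Icc 1 X, F n / n| ≤ (1 - c₁) * ∑ n ∈ Icc 1 X, P n / n := by
  classical
  set τ : ℝ := c - c₁ with hτ
  have hτ0 : 0 < τ := by linarith
  have hE1 : LZ (E ∪ {n | n < N₀}) := LZ_union hE (LZ_bdd _ N₀ fun n hn => hn)
  obtain ⟨X₁, hX₁⟩ := (LZ_iff _).1 hE1 (τ * β / 4) (by positivity)
  have hlog : Tendsto (fun X : ℕ => Real.log X) atTop atTop :=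
    Real.tendsto_log_atTop.comp tendsto_natCast_atTop_atTop
  obtain ⟨X₂, hX₂⟩ := eventually_atTop.1 (hlog.eventually_ge_atTop (8 / (τ * β) + 2 * (N₁ + 1)))
  refine ⟨X₁ + X₂ + 2, fun X hX => ?_⟩
  have h1 := hX₁ X (by omega)
  have h2 := hX₂ X (by omega)
  have hQ : ∀ N : ℕ, ∑ n ∈ Icc 1 N, P n ≤ N := by
    intro N
    refine (sum_le_sum fun k _ => hP1 _).trans (le_of_eq ?_)
    simp
  have hQ0 : ∀ N : ℕ, 0 ≤ ∑ n ∈ Icc 1 N, P n := fun N => sum_nonneg fun n _ => hP0 n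
  have hS : ∀ N : ℕ, |∑ n ∈ Icc 1 N, F n| ≤ ∑ n ∈ Icc 1 N, P n := by
    intro N
    exact (abs_sum_le_sum_abs _ _).trans (sum_le_sum fun k _ => hFP _)
  rw [abel_log F, abel_log P]
  set T : ℝ := ∑ N ∈ Icc 1 X, (∑ n ∈ Icc 1 N, P n) * (1 / ((N : ℝ) * (N + 1))) with hT
  set D : ℝ := (∑ n ∈ Icc 1 X, P n) / ((X : ℝ) + 1) with hD
  have hD0 : 0 ≤ D := div_nonneg (hQ0 X) (by positivity)
  have hD1 : D ≤ 1 := by
    rw [hD, div_le_one (by positivity)]
    have := hQ X
    linarith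
  have h3 : |(∑ n ∈ Icc 1 X, F n) / ((X : ℝ) + 1)| ≤ D := by
    rw [abs_div, abs_of_pos (by positivity : (0 : ℝ) < (X : ℝ) + 1), hD]
    exact div_le_div_of_nonneg_right (hS X) (by positivity)
  have h4 : |∑ N ∈ Icc 1 X, (∑ n ∈ Icc 1 N, F n) * (1 / ((N : ℝ) * (N + 1)))| ≤
      (1 - c) * T + ls (E ∪ {n | n < N₀}) X := by
    refine (abs_sum_le_sum_abs _ _).trans ?_
    have h5 : ∀ N ∈ Icc 1 X, |(∑ n ∈ Icc 1 N, F n) * (1 / ((N : ℝ) * (N + 1)))| ≤
        (1 - c) * ((∑ n ∈ Icc 1 N, P n) * (1 / ((N : ℝ) * (N + 1)))) + li (E ∪ {n | n < N₀}) N := by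
      intro N hN
      rw [mem_Icc] at hN
      have hN0 : (0 : ℝ) < N := by exact_mod_cast (by omega : 0 < N)
      have e1 : (0 : ℝ) < 1 / ((N : ℝ) * (N + 1)) := by positivity
      rw [abs_mul, abs_of_pos e1]
      have e2 : (N : ℝ) * (1 / ((N : ℝ) * (N + 1))) ≤ 1 / N := by
        rw [mul_one_div, div_le_div_iff₀ (by positivity) hN0]
        nlinarith
      by_cases hNE : N ∈ E ∪ {n | n < N₀}
      · rw [li_mem hNE]
        have : |∑ n ∈ Icc 1 N, F n| * (1 / ((N : ℝ) * (N + 1))) ≤ N * (1 / ((N : ℝ) * (N + 1))) :=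
          mul_le_mul_of_nonneg_right ((hS N).trans (hQ N)) e1.le
        have h6 : 0 ≤ (1 - c) * ((∑ n ∈ Icc 1 N, P n) * (1 / ((N : ℝ) * (N + 1)))) :=
          mul_nonneg (by linarith) (mul_nonneg (hQ0 N) e1.le)
        linarith
      · rw [li_not hNE, add_zero]
        have h6 : N ∉ E := fun hh => hNE (Or.inl hh)
        have h7 : N₀ ≤ N := by
          by_contra hcc
          exact hNE (Or.inr (not_le.1 hcc))
        calc |∑ n ∈ Icc 1 N, F n| * (1 / ((N : ℝ) * (N + 1))) ≤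
              ((1 - c) * ∑ n ∈ Icc 1 N, P n) * (1 / ((N : ℝ) * (N + 1))) :=
              mul_le_mul_of_nonneg_right (h N h7 h6) e1.le
          _ = (1 - c) * ((∑ n ∈ Icc 1 N, P n) * (1 / ((N : ℝ) * (N + 1)))) := by ring
    refine (sum_le_sum h5).trans ?_
    rw [sum_add_distrib, ← mul_sum, ls_eq]
  have h6 : β * (Real.log X - 1) - β * N₁ ≤ T := by
    have h7 : ∀ N ∈ Icc 1 X, β * (1 / ((N : ℝ) + 1)) - (if N < N₁ then β else 0) ≤
        (∑ n ∈ Icc 1 N, P n) * (1 / ((N : ℝ) * (N + 1))) := by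
      intro N hN
      rw [mem_Icc] at hN
      have hN0 : (0 : ℝ) < N := by exact_mod_cast (by omega : 0 < N)
      by_cases hNN : N < N₁
      · rw [if_pos hNN]
        have e1 : 1 / ((N : ℝ) + 1) ≤ 1 := by
          rw [div_le_one (by positivity)]; linarith
        have e2 : 0 ≤ (∑ n ∈ Icc 1 N, P n) * (1 / ((N : ℝ) * (N + 1))) :=
          mul_nonneg (hQ0 N) (by positivity)
        nlinarith
      · rw [if_neg hNN, sub_zero]
        have e1 := hlow N (not_lt.1 hNN)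
        calc β * (1 / ((N : ℝ) + 1)) = β * N * (1 / ((N : ℝ) * (N + 1))) := by field_simp
          _ ≤ _ := mul_le_mul_of_nonneg_right e1 (by positivity)
    have h8 := sum_le_sum h7
    rw [sum_sub_distrib, ← mul_sum, ← hT] at h8
    have h9 : ∑ N ∈ Icc 1 X, (if N < N₁ then β else 0) ≤ β * N₁ := by
      rw [← sum_filter, sum_const, nsmul_eq_mul, mul_comm]
      apply mul_le_mul_of_nonneg_left _ hβ.le
      have : ((Icc 1 X).filter (fun N => N < N₁)).card ≤ (range N₁).card := by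
        apply card_le_card
        intro n hn
        rw [mem_filter] at hn
        exact mem_range.2 hn.2
      rw [card_range] at this
      exact_mod_cast this
    have h10 : Real.log X - 1 ≤ ∑ N ∈ Icc 1 X, 1 / ((N : ℝ) + 1) := by
      have e1 := log_add_one_le_harmonic (X + 1)
      have e2 : ((harmonic (X + 1) : ℚ) : ℝ) = 1 + ∑ N ∈ Icc 1 X, 1 / ((N : ℝ) + 1) := by
        unfold harmonic
        rw [sum_range_succ', add_comm]
        push_cast
        congr 1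
        · simp
        · rw [← sum_range_Icc (fun N => 1 / ((N : ℝ) + 1)) X]
          apply sum_congr rfl
          intro i _
          push_cast
          rw [one_div]
      have e3 : Real.log X ≤ Real.log ((X + 1 + 1 : ℕ) : ℝ) := by
        apply Real.log_le_log (by exact_mod_cast (by omega : 0 < X))
        exact_mod_cast (by omega : X ≤ X + 1 + 1)
      rw [e2] at e1
      linarith
    nlinarith
  have h11 := abs_add_le (∑ N ∈ Icc 1 X, (∑ n ∈ Icc 1 N, F n) * (1 / ((N : ℝ) * (N + 1))))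
    ((∑ n ∈ Icc 1 X, F n) / ((X : ℝ) + 1))
  have hcβ : 0 < τ * β := by positivity
  have h12 : 8 + 2 * ((N₁ : ℝ) + 1) * (τ * β) ≤ Real.log X * (τ * β) := by
    have := mul_le_mul_of_nonneg_right h2 hcβ.le
    rw [add_mul, div_mul_cancel₀ _ hcβ.ne'] at this
    linarith
  have h13 : τ * (β * (Real.log X - 1) - β * N₁) ≤ τ * T :=
    mul_le_mul_of_nonneg_left h6 hτ0.le
  have h14 : (1 - c) * T = (1 - c₁) * T - τ * T := by rw [hτ]; ring
  have h15 : (1 - c₁) * (T + D) = (1 - c₁) * T + D - c₁ * D := by ring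
  have h16 : c₁ * D ≤ 1 := by
    calc c₁ * D ≤ 1 * 1 := mul_le_mul (by linarith) hD1 hD0 zero_le_one
      _ = 1 := one_mul 1
  rw [h15]
  rw [h14] at h4
  nlinarith

/-- the final statement -/
theorem mob_final_expl : ∃ E : Set ℕ, LZ E ∧ ∀ (r : ℕ) (α : Fin r → ℤ) (ε : Fin r → ℕ),
    Function.Injective α → (∀ i, ε i = 1 ∨ ε i = 2) → 2 ≤ (univ.filter (fun i => ε i = 1)).card →
    ∀ δ : ℝ, 0 < δ →
      (∃ N₀ : ℕ, ∀ N : ℕ, N₀ ≤ N → N ∉ E → |∑ n ∈ Icc 1 N, GG α ε n| ≤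
        (1 - 1 / (2 ^ ((univ.filter (fun i => ε i = 1)).card - 1) - 1) + δ) *
          ∑ n ∈ Icc 1 N, GG α (fun _ => 2) n) ∧
      ∃ N₀ : ℕ, ∀ N : ℕ, N₀ ≤ N → |∑ n ∈ Icc 1 N, GG α ε n / n| ≤
        (1 - 1 / (2 ^ ((univ.filter (fun i => ε i = 1)).card - 1) - 1) + δ) *
          ∑ n ∈ Icc 1 N, GG α (fun _ => 2) n / n := by
  classical
  -- the constants
  set MM : ℕ → ℝ := fun s => 2 ^ (s - 1) - 1 with hMM
  have hMM1 : ∀ s, 2 ≤ s → 1 ≤ MM s := by
    intro s hs
    have : (2 : ℝ) ≤ 2 ^ (s - 1) := by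
      calc (2 : ℝ) = 2 ^ 1 := by norm_num
        _ ≤ 2 ^ (s - 1) := pow_le_pow_right₀ (by norm_num) (by omega)
    rw [hMM]
    simp only
    linarith
  set cc : ℕ → ℕ → ℝ := fun s j => 1 / MM s * (1 - 1 / ((j : ℝ) + 2)) with hcc
  have hj0 : ∀ j : ℕ, 0 < 1 - 1 / ((j : ℝ) + 2) := by
    intro j
    rw [sub_pos, div_lt_one (by positivity)]
    have : (0 : ℝ) ≤ j := Nat.cast_nonneg j
    linarith
  have hcc0 : ∀ s j, 2 ≤ s → 0 < cc s j := by
    intro s j hs
    have := hMM1 s hs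
    exact mul_pos (by positivity) (hj0 j)
  have hcc1 : ∀ s j, 2 ≤ s → cc s j * MM s < 1 := by
    intro s j hs
    have h0 := hMM1 s hs
    rw [hcc]
    simp only
    have h1 : 1 / MM s * (1 - 1 / ((j : ℝ) + 2)) * MM s = 1 - 1 / ((j : ℝ) + 2) := by
      have : MM s ≠ 0 := by linarith
      field_simp
    rw [h1]
    have : 0 < 1 / ((j : ℝ) + 2) := by positivity
    linarith
  have hcc2 : ∀ s j, 2 ≤ s → cc s j < 1 := by
    intro s j hs
    have h1 := hcc1 s j hs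
    have h2 := hMM1 s hs
    have h3 := hcc0 s j hs
    nlinarith
  set G : (Σ r : ℕ, (Fin r → ℤ) × (Fin r → ℕ)) × ℕ → Set ℕ := fun t =>
    {N | (Function.Injective t.1.2.1 ∧ (∀ i, t.1.2.2 i = 1 ∨ t.1.2.2 i = 2) ∧
        2 ≤ (univ.filter (fun i => t.1.2.2 i = 1)).card) ∧
      (1 - cc (univ.filter (fun i => t.1.2.2 i = 1)).card t.2) * ∑ n ∈ Icc 1 N, GG t.1.2.1 (fun _ => 2) n <
        |∑ n ∈ Icc 1 N, GG t.1.2.1 t.1.2.2 n|} with hG
  have hzero : ∀ (r : ℕ) (α : Fin r → ℤ) (ε : Fin r → ℕ), (∀ i, ε i = 1 ∨ ε i = 2) →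
      (∀ n, GG α (fun _ => 2) n = 0) → ∀ n, GG α ε n = 0 := by
    intro r α ε hε h n
    have h1 := GG_abs α ε hε n
    rw [h n] at h1
    exact abs_eq_zero.1 h1
  have hGZ : ∀ t, LZ (G t) := by
    rintro ⟨⟨r, α, ε⟩, j⟩
    by_cases ht : Function.Injective α ∧ (∀ i, ε i = 1 ∨ ε i = 2) ∧ 2 ≤ (univ.filter (fun i => ε i = 1)).card
    · rcases mob_shift_expl _ ht.2.2 _ (hcc0 _ j ht.2.2) (hcc1 _ j ht.2.2) r α ε ht.1 ht.2.1 rfl with h | ⟨-, h⟩
      · refine LZ_sub ?_ LZ_empty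
        rintro N ⟨-, hN⟩
        simp only at hN
        rw [sum_congr rfl fun n _ => h n, sum_congr rfl fun n _ => hzero r α ε ht.2.1 h n] at hN
        simp at hN
      · refine LZ_sub ?_ h
        rintro N ⟨-, hN⟩
        exact hN
    · refine LZ_sub ?_ LZ_empty
      rintro N ⟨h, -⟩
      exact absurd h ht
  haveI : Nonempty ((Σ r : ℕ, (Fin r → ℤ) × (Fin r → ℕ)) × ℕ) := ⟨⟨⟨0, Fin.elim0, Fin.elim0⟩, 0⟩⟩
  obtain ⟨E, hE, hdiag⟩ := diag' G hGZ
  refine ⟨E, hE, fun r α ε hα hε hex δ hδ => ?_⟩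
  set s := (univ.filter (fun i => ε i = 1)).card with hs
  -- the index
  obtain ⟨j, hj⟩ := exists_nat_one_div_lt (show 0 < δ / 2 by positivity)
  have hMs := hMM1 s hex
  have hP1 : (1 : ℝ) / MM s ≤ 1 := by
    rw [div_le_one (by linarith)]
    exact hMs
  have hP0 : (0 : ℝ) < 1 / MM s := by positivity
  have hcj : 1 / MM s - δ / 2 ≤ cc s j := by
    rw [hcc]
    simp only
    have h1 : 1 / ((j : ℝ) + 2) ≤ δ / 2 := by
      refine le_trans ?_ hj.le
      apply one_div_le_one_div_of_le (by positivity)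
      linarith
    have h2 : 0 ≤ 1 / ((j : ℝ) + 2) := by positivity
    nlinarith
  obtain ⟨N₀, hN₀⟩ := hdiag ⟨⟨r, α, ε⟩, j⟩
  have h1 : ∀ N : ℕ, N₀ ≤ N → N ∉ E → |∑ n ∈ Icc 1 N, GG α ε n| ≤
      (1 - cc s j) * ∑ n ∈ Icc 1 N, GG α (fun _ => 2) n := by
    intro N hN hNE
    by_contra hcon
    apply hNE
    exact hN₀ N ⟨⟨hα, hε, hex⟩, not_le.1 hcon⟩ hN
  refine ⟨⟨N₀, fun N hN hNF => (h1 N hN hNF).trans ?_⟩, ?_⟩
  · apply mul_le_mul_of_nonneg_right _ (sum_nonneg fun n _ => (GG_two α n).1)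
    change 1 - cc s j ≤ 1 - 1 / MM s + δ
    linarith
  · rcases mob_shift_expl s hex _ (hcc0 _ j hex) (hcc1 _ j hex) r α ε hα hε rfl with h | ⟨⟨β, hβ, N₁, hβN⟩, -⟩
    · refine ⟨0, fun N _ => ?_⟩
      have e1 : ∀ n ∈ Icc 1 N, GG α ε n / n = 0 := fun n _ => by rw [hzero r α ε hε h n, zero_div]
      have e2 : ∀ n ∈ Icc 1 N, GG α (fun _ => 2) n / n = 0 := fun n _ => by rw [h n, zero_div]
      rw [sum_congr rfl e1, sum_congr rfl e2]
      simp
    · set c₁ : ℝ := max (cc s j - δ / 2) (cc s j / 2) with hc₁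
      have hc1a : 0 < c₁ := lt_of_lt_of_le (by have := hcc0 s j hex; positivity) (le_max_right _ _)
      have hc1b : c₁ < cc s j := by
        rw [hc₁]
        have := hcc0 s j hex
        apply max_lt <;> linarith
      obtain ⟨X₀, hX₀⟩ := log_rel2 (GG α ε) (GG α (fun _ => 2)) (fun n => (GG_two α n).1)
        (fun n => (GG_two α n).2) (fun n => (GG_abs α ε hε n).le) (cc s j) c₁ hc1a hc1b (hcc2 s j hex) E hE N₀ h1
        β hβ N₁ hβN
      refine ⟨X₀, fun X hX => (hX₀ X hX).trans ?_⟩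
      apply mul_le_mul_of_nonneg_right _ (sum_nonneg fun n _ => div_nonneg (GG_two α n).1 (Nat.cast_nonneg n))
      change 1 - c₁ ≤ 1 - 1 / MM s + δ
      have h2 : cc s j - δ / 2 ≤ c₁ := le_max_left _ _
      linarith

end Pool.Agent.V5helper49.EU
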